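import Pool.Agent.H92.SF.VAL

set_option autoImplicit false

namespace Pool.Agent.H92.SF

open MvPolynomial
open Pool.Agent.H84.SM (dp cr dt)

section

variable {L R : Type} [CommRing L] [CommRing R]

theorem ev2_pv1 (φ : L →+* R) (p : Fin 3 → R) (w : R) (x : Fin 3 → L) (i0 : L) :
    ev2 φ p w (pv x i0 1) = p 1 := by
  rw [pv]; simp [ev2_C]

theorem ev2_pv2 (φ : L →+* R) (p : Fin 3 → R) (w : R) (x : Fin 3 → L) (i0 : L) :
    ev2 φ p w (pv x i0 2) = p 2 := by
  rw [pv]; simp [ev2_C]

theorem ev2_pv (φ : L →+* R) (p : Fin 3 → R) (w : R) (x : Fin 3 → L) (i0 : L)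
    (h0 : i0 * x 0 = 1) (hp : dp (fun i => φ (x i)) p = 0) (i : Fin 3) :
    ev2 φ p w (pv x i0 i) = p i := by
  fin_cases i
  · show ev2 φ p w (pv x i0 0) = p 0
    rw [pv]
    simp only [Matrix.cons_val_zero, map_neg, ev2_C]
    simp only [dp, Fin.sum_univ_three] at hp
    have h1 : φ i0 * φ (x 0) = 1 := by rw [← map_mul, h0, map_one]
    simp only [map_add, map_mul, eval₂Hom_C, eval₂Hom_X', Matrix.cons_val_zero,
      Matrix.cons_val_one]
    linear_combination -(φ i0) * hp + p 0 * h1
  · exact ev2_pv1 φ p w x i0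
  · exact ev2_pv2 φ p w x i0

theorem dp_pc (m : ℕ) (x g : Fin 3 → L) (G s : L) (he : dp x g = m * G) :
    dp (fun i => cc (x i)) (pc m x g G s) = 0 := by
  have h : dp (fun i => cc (x i)) (fun i => cc (g i)) = cc (m * G) := by
    rw [← he]; simp [dp]
  have : dp (fun i => cc (x i)) (pc m x g G s) =
      cc s ^ 2 * (dp (fun i => cc (x i)) (fun i => cc (g i)) * muc x - cc (m * G) * muc x) := by
    simp only [dp, pc, muc, Fin.sum_univ_three]
    ring
  rw [this, h]; ring

theorem Psi_cq (m : ℕ) (x g : Fin 3 → L) (G : L) (H : Fin 3 → Fin 3 → L) (s a : L) :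
    Psi m x g G H s (cq a) = cc a := ev2_cq _ _ _ _

theorem Psi_X (m : ℕ) (x g : Fin 3 → L) (G : L) (H : Fin 3 → Fin 3 → L) (s : L) :
    Psi m x g G H s Polynomial.X = wc m x g G H s := ev2_X _ _ _

theorem Psi_pv (m : ℕ) (x g : Fin 3 → L) (G : L) (H : Fin 3 → Fin 3 → L) (s i0 : L)
    (he : dp x g = m * G) (h0 : i0 * x 0 = 1) (i : Fin 3) :
    Psi m x g G H s (pv x i0 i) = pc m x g G s i :=
  ev2_pv _ _ _ _ _ h0 (dp_pc m x g G s he) i

end

theorem pf_PQV : T_PQV := by
  intro L _ m x g G H s i0 i1 hD h0 h1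
  have hp := Psi_pv m x g G H s i0 hD.eul h0
  have h1' : (cc i1 : C3 L) * cc (m * G) = 1 := by rw [← map_mul, h1, map_one]
  have hgx : dp (fun i => cc (x i)) (fun i => cc (g i)) = (cc (m * G) : C3 L) := by
    rw [← hD.eul]; simp [dp]
  have hq2 : ∀ i, Psi m x g G H s (qv x g i0 i1 i) = cc s ^ 2 * gxr g i := by
    intro i
    rw [qv, map_mul, map_neg, Psi_cq]
    have e1 : Psi m x g G H s (cr (fun i => cq (g i)) (pv x i0) i) =
        cr (fun i => cc (g i)) (pc m x g G s) i := by
      simp only [cr, map_sub, map_mul, Psi_cq, hp]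
    have e2 : cr (fun i => cc (g i)) (pc m x g G s) i =
        - (cc s ^ 2 * cc (m * G) * gxr g i) := by
      simp only [cr, pc, gxr]; ring
    rw [e1, e2]
    linear_combination (cc s ^ 2 * gxr g i) * h1'
  refine ⟨hp, hq2, fun l => ?_⟩
  rw [sl, map_mul, Psi_cq, map_add, map_mul, map_mul, Psi_cq, Psi_X, hp]
  have e3 : Psi m x g G H s (hq (fun i j => cq (H i j)) (qv x g i0 i1) (qv x g i0 i1)) =
      cc s ^ 4 * hq (fun i j => cc (H i j)) (gxr g) (gxr g) := by
    simp only [hq, map_sum, map_mul, Psi_cq, hq2, Finset.mul_sum]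
    refine Finset.sum_congr rfl fun i _ => Finset.sum_congr rfl fun j _ => ?_
    ring
  rw [e3]
  simp only [wc, pc]
  linear_combination (cc (g l) * zv -
    cc s ^ 6 * hq (fun i j => cc (H i j)) (gxr g) (gxr g) * rv l) * h1'

theorem pf_LIN : T_LIN := by
  intro L _ m x g G H s i0 i1 i2 hD h0 h1 h2 V
  rw [ev3_Psi]
  have hx : dp (fun i => cq (x i)) (pv x i0) = (0 : Q2 L) := by
    have h0' : (cq i0 : Q2 L) * cq (x 0) = 1 := by rw [← map_mul, h0, map_one]
    simp only [cq, RingHom.comp_apply] at h0'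
    simp only [dp, pv, Fin.sum_univ_three, cq, RingHom.comp_apply, Matrix.cons_val_zero,
      Matrix.cons_val_one, Matrix.cons_val, map_mul, map_add, neg_add_rev]
    linear_combination (- Polynomial.C (C (x 1)) * Polynomial.C (X 0) -
      Polynomial.C (C (x 2)) * Polynomial.C (X 1)) * h0'
  have hx' : dp (fun i => cq (x i)) (fun i => -(cq (i1 * i2 ^ 2) * pv x i0 i)) = (0 : Q2 L) := by
    have : dp (fun i => cq (x i)) (fun i => -(cq (i1 * i2 ^ 2) * pv x i0 i)) =
        -(cq (i1 * i2 ^ 2) : Q2 L) * dp (fun i => cq (x i)) (pv x i0) := by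
      simp only [dp, Fin.sum_univ_three]; ring
    rw [this, hx, mul_zero]
  rw [hx']
  have h1' : (cq i1 : Q2 L) * cq (m * G) = 1 := by rw [← map_mul, h1, map_one]
  have h2' : (cq i2 : Q2 L) * cq s = 1 := by rw [← map_mul, h2, map_one]
  have hF : (RingHom.id (Q2 L)) = ev2 cq (fun i => cq s ^ 2 * (cq (g i) * 0 -
      cq (m * G) * -(cq (i1 * i2 ^ 2) * pv x i0 i))) (cq (m * G) * (cq i1 * Polynomial.X) -
      cq s ^ 6 * hq (fun i j => cq (H i j)) (cr (fun i => cq (g i))
        fun i => -(cq (i1 * i2 ^ 2) * pv x i0 i)) (cr (fun i => cq (g i))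
        fun i => -(cq (i1 * i2 ^ 2) * pv x i0 i)) * 0) := by
    have key : ∀ i, cq s ^ 2 * (cq (g i) * 0 - cq (m * G) * -(cq (i1 * i2 ^ 2) * pv x i0 i)) =
        pv x i0 i := by
      intro i
      have e : (cq (i1 * i2 ^ 2) : Q2 L) = cq i1 * cq i2 ^ 2 := by rw [map_mul, map_pow]
      rw [e]
      linear_combination (cq s ^ 2 * cq i2 ^ 2 * pv x i0 i) * h1' +
        (cq i2 * cq s + 1) * pv x i0 i * h2'
    apply ev2_ext
    · intro a; rfl
    · rw [key]; simp [pv]
    · rw [key]; simp [pv]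
    · rw [RingHom.id_apply]
      linear_combination (- Polynomial.X : Q2 L) * h1'
  rw [← hF]; rfl

theorem pf_SHF : T_SHF := by
  intro L R _ _ φ m x g G H s hD ρ ζ c V
  rw [ev3_Psi, ev3_Psi]
  have eul : dp (fun i => φ (x i)) (fun i => φ (g i)) = φ (m * G) := by
    rw [← hD.eul]; simp [dp]
  have e1 : dp (fun i => φ (x i)) (fun i => ρ i + c * φ (g i)) =
      dp (fun i => φ (x i)) ρ + c * φ (m * G) := by
    rw [← eul]; simp only [dp, Fin.sum_univ_three]; ring
  have e2 : cr (fun i => φ (g i)) (fun i => ρ i + c * φ (g i)) = cr (fun i => φ (g i)) ρ := by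
    funext i; simp only [cr]; ring
  rw [e1, e2]
  congr 1
  congr 1
  · funext i; ring
  · ring

theorem pf_PDW : T_PDW := by
  intro L _ m x g G H s V
  have hP : ∀ a : MvPolynomial (Fin 2) L, Polynomial.derivative
      (eval₂Hom cc ![pc m x g G s 1, pc m x g G s 2] a : C3 L) = 0 := by
    intro a
    induction a using MvPolynomial.induction_on with
    | C a => simp [cc]
    | add p q hp hq => rw [map_add, Polynomial.derivative_add, hp, hq, add_zero]
    | mul_X p i hp =>
      rw [map_mul, Polynomial.derivative_mul, hp, zero_mul, zero_add]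
      have : Polynomial.derivative (eval₂Hom cc ![pc m x g G s 1, pc m x g G s 2] (X i) : C3 L)
          = 0 := by
        have hpc : ∀ i, Polynomial.derivative (pc m x g G s i) = 0 := by
          intro i
          simp [pc, muc, cc, rv, dp, Polynomial.derivative_mul, Polynomial.derivative_pow]
        rw [eval₂Hom_X']
        fin_cases i
        · simpa using hpc 1
        · simpa using hpc 2
      rw [this, mul_zero]
  induction V using Polynomial.induction_on' with
  | add p q hp hq =>
    rw [map_add, Polynomial.derivative_add, hp, hq, Polynomial.derivative_add, map_add, mul_add]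
  | monomial n a =>
    rw [Polynomial.derivative_monomial]
    have hw : Polynomial.derivative (wc m x g G H s) = cc (m * G) := by
      have h0 : Polynomial.derivative (cc s ^ 6 * hq (fun i j => cc (H i j)) (gxr g) (gxr g) *
          muc x : C3 L) = 0 := by
        have hC : ∃ a : MvPolynomial (Fin 3) L, (cc s ^ 6 * hq (fun i j => cc (H i j)) (gxr g)
            (gxr g) * muc x : C3 L) = Polynomial.C a := by
          refine ⟨C s ^ 6 * (∑ i, ∑ j, C (H i j) * (C (g (i + 1)) * X (i + 2) -
            C (g (i + 2)) * X (i + 1)) * (C (g (j + 1)) * X (j + 2) -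
            C (g (j + 2)) * X (j + 1))) * ∑ i, C (x i) * X i, ?_⟩
          simp [cc, hq, gxr, cr, muc, dp, rv, map_sum]
        obtain ⟨a, ha⟩ := hC
        rw [ha, Polynomial.derivative_C]
      rw [wc, Polynomial.derivative_sub, h0, sub_zero, Polynomial.derivative_mul]
      simp [cc, zv]
    have hc : ∀ b : MvPolynomial (Fin 2) L, Psi m x g G H s (Polynomial.C b) =
        eval₂Hom cc ![pc m x g G s 1, pc m x g G s 2] b := fun b => ev2_C _ _ _ _
    have hm : ∀ (b : MvPolynomial (Fin 2) L) (k : ℕ),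
        Psi m x g G H s (Polynomial.C b * Polynomial.X ^ k) =
        eval₂Hom cc ![pc m x g G s 1, pc m x g G s 2] b * wc m x g G H s ^ k := by
      intro b k
      rw [map_mul, map_pow, Psi_X, hc]
    rw [← Polynomial.C_mul_X_pow_eq_monomial, ← Polynomial.C_mul_X_pow_eq_monomial, hm, hm,
      Polynomial.derivative_mul, hP, zero_mul, zero_add, Polynomial.derivative_pow, hw,
      map_mul (eval₂Hom cc _), map_natCast]
    simp only [map_natCast]
    ring

end Pool.Agent.H92.SF
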