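import Pool.Agent.H92.SF.VAL

set_option autoImplicit false

namespace Pool.Agent.H92.SF

open MvPolynomial
open Pool.Agent.H84.SM (dp cr dt)

theorem pf_JET : T_JET := by
  intro K _ _ D m x g G H hm hD hG hDG hDg q t hqd ht
  have hm0 : (m : K) ≠ 0 := Nat.cast_ne_zero.mpr (by omega)
  set lam : K := D G / (m * G) with hlam
  have hl : lam * (m * G) = D G := by rw [hlam]; field_simp
  have eul := hD.eul
  have hgq : dp g q = 0 := by
    have e1 : dp g q = ∑ i, g i * D (x i) - lam * dp x g := by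
      simp only [dp, hqd, Fin.sum_univ_three]; ring
    rw [e1, ← hDG, eul, hl, sub_self]
  have hHx : ∀ a : Fin 3 → K, hq H a x = (m - 1) * dp g a := by
    intro a
    have : hq H a x = ∑ i, a i * ∑ j, H i j * x j := by
      simp only [hq, Finset.mul_sum]
      exact Finset.sum_congr rfl fun i _ => Finset.sum_congr rfl fun j _ => by ring
    rw [this]
    simp only [hD.hes, dp, Fin.sum_univ_three]; ring
  have hDq : dp g (fun j => D (q j) - lam * q j) = - hq H q q := by
    have e1 : D (dp g q) = 0 := by rw [hgq, map_zero]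
    have e2 : D (dp g q) = ∑ i, ∑ j, H i j * D (x j) * q i + ∑ i, g i * D (q i) := by
      simp only [dp, map_sum, Derivation.leibniz, smul_eq_mul, hDg, Finset.sum_add_distrib]
      rw [add_comm]
      congr 1
      refine Finset.sum_congr rfl fun i _ => ?_
      rw [Finset.mul_sum]
      exact Finset.sum_congr rfl fun j _ => by ring
    have e3 : ∑ i, ∑ j, H i j * D (x j) * q i = hq H q q +
        lam * hq H q x := by
      simp only [hq, Finset.mul_sum, ← Finset.sum_add_distrib]
      refine Finset.sum_congr rfl fun i _ => Finset.sum_congr rfl fun j _ => ?_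
      rw [hqd j]; ring
    rw [hHx, hgq, mul_zero, mul_zero, add_zero] at e3
    have e4 : dp g (fun j => D (q j) - lam * q j) = ∑ i, g i * D (q i) - lam * dp g q := by
      simp only [dp, Fin.sum_univ_three]; ring
    rw [e4, hgq, mul_zero, sub_zero]
    linear_combination -e2 + e1 - e3
  refine ⟨hgq, fun i => ?_, fun i => ?_, ?_⟩
  · have e1 : cr g t i = q i * dp g (fun j => D (q j) - lam * q j) -
        (D (q i) - lam * q i) * dp g q := by
      have : t = cr q (fun j => D (q j) - lam * q j) := funext ht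
      rw [this]
      fin_cases i <;> simp [cr, dp, Fin.sum_univ_three] <;> ring
    rw [e1, hDq, hgq]; ring
  · simp only [cr, hqd]; ring
  · have hDq' : ∀ j, D (q j) = D (D (x j)) - lam * D (x j) - D lam * x j := by
      intro j
      rw [hqd j, map_sub, Derivation.leibniz, smul_eq_mul, smul_eq_mul]; ring
    have : t = cr q (fun j => D (q j) - lam * q j) := funext ht
    rw [this]
    simp only [dt, dp, cr, Fin.sum_univ_three, hDq']
    simp only [hqd]
    simp
    ring

theorem ev2_sum {L R : Type} [CommRing L] [CommRing R] (φ : L →+* R) (p : Fin 3 → R) (w : R)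
    (V : Q2 L) : ev2 φ p w V = ∑ j ∈ Finset.range (V.natDegree + 1),
      eval₂ φ ![p 1, p 2] (V.coeff j) * w ^ j := by
  rw [ev2, Polynomial.coe_eval₂RingHom, Polynomial.eval₂_eq_sum_range]
  rfl

theorem pf_SCL : T_SCL := by
  intro L K _ _ φ φ' n τ V c μ hc hV hs p w
  rw [ev2_sum, ev2_sum, Finset.mul_sum]
  refine Finset.sum_congr rfl fun j _ => ?_
  by_cases hj : 3 * j ≤ n
  · have hh := (hV j).1 hj
    have e1 : eval₂ φ' ![c ^ 2 * μ * p 1, c ^ 2 * μ * p 2] (V.coeff j) =
        c ^ (τ - 2 * n + 3 * j) * (c ^ 2 * μ) ^ (n - 3 * j) *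
          eval₂ φ ![p 1, p 2] (V.coeff j) := by
      rw [eval₂_eq', eval₂_eq', Finset.mul_sum]
      refine Finset.sum_congr rfl fun a ha => ?_
      have ha' : a 0 + a 1 = n - 3 * j := by
        have := hh (MvPolynomial.mem_support_iff.mp ha)
        rw [Finsupp.weight_apply, Finsupp.sum_fintype _ _ (by simp)] at this
        simpa [Fin.sum_univ_two] using this
      rw [hs j a]
      simp only [Fin.prod_univ_two, Matrix.cons_val_zero, Matrix.cons_val_one]
      rw [← ha', mul_pow, mul_pow (c ^ 2 * μ)]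
      ring
    rw [e1]
    have e2 : c ^ (τ - 2 * n + 3 * j) * (c ^ 2 * μ) ^ (n - 3 * j) * (c ^ 3 * μ ^ 3) ^ j =
        c ^ τ * μ ^ n := by
      have h1 : (c ^ 2 * μ) ^ (n - 3 * j) * (c ^ 3 * μ ^ 3) ^ j =
          c ^ (2 * (n - 3 * j) + 3 * j) * μ ^ n := by
        have : n = (n - 3 * j) + 3 * j := by omega
        calc (c ^ 2 * μ) ^ (n - 3 * j) * (c ^ 3 * μ ^ 3) ^ j
            = c ^ (2 * (n - 3 * j) + 3 * j) * μ ^ ((n - 3 * j) + 3 * j) := by
              rw [mul_pow, mul_pow, ← pow_mul, ← pow_mul, ← pow_mul, pow_add, pow_add]; ring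
          _ = _ := by rw [← this]
      rw [mul_assoc, h1, ← mul_assoc]
      congr 1
      rw [← zpow_natCast c (2 * (n - 3 * j) + 3 * j), ← zpow_add₀ hc]
      congr 1
      push_cast [Nat.cast_sub hj]
      ring
    calc _ = (c ^ (τ - 2 * n + 3 * j) * (c ^ 2 * μ) ^ (n - 3 * j) * (c ^ 3 * μ ^ 3) ^ j) *
          (eval₂ φ ![p 1, p 2] (V.coeff j) * w ^ j) := by rw [mul_pow (c ^ 3 * μ ^ 3) w]; ring
      _ = _ := by rw [e2]
  · rw [(hV j).2 (by omega)]
    simp

theorem ic_add {σ L : Type} [CommRing L] {n : ℕ} {a b : MvPolynomial σ L}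
    (ha : a.IsHomogeneous n) (hb : b.IsHomogeneous n) : (a + b).IsHomogeneous n := ha.add hb

/-- the chart ring as a graded ring: closure of `WC` -/
theorem WC.add {L : Type} [CommRing L] {n : ℕ} {a b : C3 L} (ha : WC n a) (hb : WC n b) :
    WC n (a + b) := by
  intro j
  refine ⟨fun h => ?_, fun h => ?_⟩
  · rw [Polynomial.coeff_add]; exact ((ha j).1 h).add ((hb j).1 h)
  · rw [Polynomial.coeff_add, (ha j).2 h, (hb j).2 h, add_zero]

theorem WC.zero {L : Type} [CommRing L] (n : ℕ) : WC n (0 : C3 L) := by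
  intro j
  exact ⟨fun _ => by rw [Polynomial.coeff_zero]; exact isHomogeneous_zero _ _ _,
    fun _ => Polynomial.coeff_zero _⟩

theorem WC.sum {L ι : Type} [CommRing L] {n : ℕ} (s : Finset ι) (f : ι → C3 L)
    (h : ∀ i ∈ s, WC n (f i)) : WC n (∑ i ∈ s, f i) := by
  classical
  induction s using Finset.induction_on with
  | empty => simpa using WC.zero n
  | insert a s ha ih =>
    rw [Finset.sum_insert ha]
    exact (h a (Finset.mem_insert_self _ _)).add
      (ih fun i hi => h i (Finset.mem_insert_of_mem hi))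

theorem WC.mul {L : Type} [CommRing L] {n k : ℕ} {a b : C3 L} (ha : WC n a) (hb : WC k b) :
    WC (n + k) (a * b) := by
  intro j
  rw [Polynomial.coeff_mul]
  refine ⟨fun h => ?_, fun h => ?_⟩
  · refine MvPolynomial.IsHomogeneous.sum _ _ _ fun u hu => ?_
    have hu' : u.1 + u.2 = j := Finset.HasAntidiagonal.mem_antidiagonal.mp hu
    by_cases h1 : 3 * u.1 ≤ n
    · by_cases h2 : 3 * u.2 ≤ k
      · have := ((ha u.1).1 h1).mul ((hb u.2).1 h2)
        have e : n - 3 * u.1 + (k - 3 * u.2) = n + k - 3 * j := by omega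
        rwa [e] at this
      · rw [(hb u.2).2 (by omega), mul_zero]; exact isHomogeneous_zero _ _ _
    · rw [(ha u.1).2 (by omega), zero_mul]; exact isHomogeneous_zero _ _ _
  · refine Finset.sum_eq_zero fun u hu => ?_
    have hu' : u.1 + u.2 = j := Finset.HasAntidiagonal.mem_antidiagonal.mp hu
    by_cases h1 : 3 * u.1 ≤ n
    · rw [(hb u.2).2 (by omega), mul_zero]
    · rw [(ha u.1).2 (by omega), zero_mul]

theorem WC.one {L : Type} [CommRing L] : WC 0 (1 : C3 L) := by
  intro j
  refine ⟨fun h => ?_, fun h => ?_⟩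
  · have : j = 0 := by omega
    subst this
    simpa using isHomogeneous_one _ _
  · have : j ≠ 0 := by omega
    rw [Polynomial.coeff_one, if_neg this]

theorem WC.cc {L : Type} [CommRing L] (a : L) : WC 0 (Pool.Agent.H92.SF.cc a) := by
  intro j
  refine ⟨fun h => ?_, fun h => ?_⟩
  · have : j = 0 := by omega
    subst this
    simpa [Pool.Agent.H92.SF.cc] using isHomogeneous_C _ _
  · have : j ≠ 0 := by omega
    simp [Pool.Agent.H92.SF.cc, Polynomial.coeff_C, this]

theorem WC.rv {L : Type} [CommRing L] (i : Fin 3) : WC 1 (Pool.Agent.H92.SF.rv i : C3 L) := by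
  intro j
  refine ⟨fun h => ?_, fun h => ?_⟩
  · have : j = 0 := by omega
    subst this
    simpa [Pool.Agent.H92.SF.rv] using isHomogeneous_X L i
  · have : j ≠ 0 := by omega
    simp [Pool.Agent.H92.SF.rv, Polynomial.coeff_C, this]

theorem WC.zv {L : Type} [CommRing L] : WC 3 (Pool.Agent.H92.SF.zv : C3 L) := by
  intro j
  refine ⟨fun h => ?_, fun h => ?_⟩
  · rcases Nat.lt_or_ge j 1 with h1 | h1
    · have : j = 0 := by omega
      subst this
      simpa [Pool.Agent.H92.SF.zv] using isHomogeneous_zero _ _ _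
    · have : j = 1 := by omega
      subst this
      simpa [Pool.Agent.H92.SF.zv] using isHomogeneous_one (Fin 3) L
  · have : j ≠ 1 := by omega
    simp [Pool.Agent.H92.SF.zv, Polynomial.coeff_X, this.symm]

theorem WC.pow {L : Type} [CommRing L] {n : ℕ} {a : C3 L} (ha : WC n a) (k : ℕ) :
    WC (n * k) (a ^ k) := by
  induction k with
  | zero => simpa using WC.one
  | succ k ih => rw [pow_succ, Nat.mul_succ]; exact ih.mul ha

theorem WC.muc {L : Type} [CommRing L] (x : Fin 3 → L) : WC 1 (Pool.Agent.H92.SF.muc x) := by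
  unfold Pool.Agent.H92.SF.muc dp
  refine WC.sum _ _ fun i _ => ?_
  have := (WC.cc (x i)).mul (WC.rv i)
  simpa using this

theorem WC.gxr {L : Type} [CommRing L] (g : Fin 3 → L) (i : Fin 3) :
    WC 1 (Pool.Agent.H92.SF.gxr g i) := by
  have e : Pool.Agent.H92.SF.gxr g i = Pool.Agent.H92.SF.cc (g (i + 1)) *
      Pool.Agent.H92.SF.rv (i + 2) + Pool.Agent.H92.SF.cc (- g (i + 2)) *
      Pool.Agent.H92.SF.rv (i + 1) := by
    simp only [Pool.Agent.H92.SF.gxr, cr, map_neg]; ring
  rw [e]
  have h1 := (WC.cc (g (i + 1))).mul (WC.rv (i + 2))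
  have h2 := (WC.cc (- g (i + 2))).mul (WC.rv (i + 1))
  rw [zero_add] at h1 h2
  exact h1.add h2

theorem WC.pc {L : Type} [CommRing L] (m : ℕ) (x g : Fin 3 → L) (G s : L) (i : Fin 3) :
    WC 1 (Pool.Agent.H92.SF.pc m x g G s i) := by
  have e : Pool.Agent.H92.SF.pc m x g G s i = Pool.Agent.H92.SF.cc (s ^ 2 * g i) *
      Pool.Agent.H92.SF.muc x + Pool.Agent.H92.SF.cc (- (s ^ 2 * (m * G))) *
      Pool.Agent.H92.SF.rv i := by
    simp only [Pool.Agent.H92.SF.pc, map_neg, map_mul, map_pow]; ring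
  rw [e]
  have h1 := (WC.cc (s ^ 2 * g i)).mul (WC.muc x)
  have h2 := (WC.cc (- (s ^ 2 * (m * G)))).mul (WC.rv i)
  rw [zero_add] at h1 h2
  exact h1.add h2

theorem WC.wc {L : Type} [CommRing L] (m : ℕ) (x g : Fin 3 → L) (G : L) (H : Fin 3 → Fin 3 → L)
    (s : L) : WC 3 (Pool.Agent.H92.SF.wc m x g G H s) := by
  have e : Pool.Agent.H92.SF.wc m x g G H s = Pool.Agent.H92.SF.cc (m * G) *
      Pool.Agent.H92.SF.zv + ∑ i, ∑ j, Pool.Agent.H92.SF.cc (- (s ^ 6 * H i j)) *
      (Pool.Agent.H92.SF.gxr g i * Pool.Agent.H92.SF.gxr g j * Pool.Agent.H92.SF.muc x) := by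
    have e0 : Pool.Agent.H92.SF.cc s ^ 6 * hq (fun i j => Pool.Agent.H92.SF.cc (H i j))
        (Pool.Agent.H92.SF.gxr g) (Pool.Agent.H92.SF.gxr g) * Pool.Agent.H92.SF.muc x =
        - ∑ i, ∑ j, Pool.Agent.H92.SF.cc (- (s ^ 6 * H i j)) *
      (Pool.Agent.H92.SF.gxr g i * Pool.Agent.H92.SF.gxr g j * Pool.Agent.H92.SF.muc x) := by
      rw [← Finset.sum_neg_distrib]
      simp only [← Finset.sum_neg_distrib]
      simp only [hq, Finset.mul_sum, Finset.sum_mul]
      refine Finset.sum_congr rfl fun i _ => Finset.sum_congr rfl fun j _ => ?_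
      simp only [map_neg, map_mul, map_pow]
      ring
    rw [Pool.Agent.H92.SF.wc, e0]
    ring
  rw [e]
  have h1 := (WC.cc ((m : L) * G)).mul WC.zv
  rw [zero_add] at h1
  refine h1.add (WC.sum _ _ fun i _ => WC.sum _ _ fun j _ => ?_)
  have h2 := (WC.cc (- (s ^ 6 * H i j))).mul (((WC.gxr g i).mul (WC.gxr g j)).mul (WC.muc x))
  rw [zero_add] at h2
  exact h2

theorem pf_PWC : T_PWC := by
  intro L _ m x g G H s n V hV
  have e : Psi m x g G H s V = ∑ j ∈ Finset.range (V.natDegree + 1),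
      eval₂ cc ![pc m x g G s 1, pc m x g G s 2] (V.coeff j) * wc m x g G H s ^ j := ev2_sum _ _ _ _
  rw [e]
  refine WC.sum _ _ fun j _ => ?_
  by_cases hj : 3 * j ≤ n
  · have hh := (hV j).1 hj
    have h1 : WC (n - 3 * j) (eval₂ cc ![pc m x g G s 1, pc m x g G s 2] (V.coeff j)) := by
      rw [eval₂_eq']
      refine WC.sum _ _ fun a ha => ?_
      have ha' : a 0 + a 1 = n - 3 * j := by
        have := hh (MvPolynomial.mem_support_iff.mp ha)
        rw [Finsupp.weight_apply, Finsupp.sum_fintype _ _ (by simp)] at this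
        simpa [Fin.sum_univ_two] using this
      simp only [Fin.prod_univ_two, Matrix.cons_val_zero, Matrix.cons_val_one]
      have h2 := (WC.cc ((V.coeff j).coeff a)).mul
        (((WC.pc m x g G s 1).pow (a 0)).mul ((WC.pc m x g G s 2).pow (a 1)))
      rw [zero_add, one_mul, one_mul, ha'] at h2
      exact h2
    have h3 := h1.mul ((WC.wc m x g G H s).pow j)
    have e3 : n - 3 * j + 3 * j = n := by omega
    rwa [e3] at h3
  · rw [(hV j).2 (by omega)]
    simpa using WC.zero n

end Pool.Agent.H92.SF
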