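import Pool.Agent.H92.SF.PD

set_option autoImplicit false

namespace Pool.Agent.H92.SF

open MvPolynomial
open Pool.Agent.H84.SM (dp cr dt)

section

variable {L R : Type} [CommRing L] [CommRing R]

theorem ev2_X (φ : L →+* R) (p : Fin 3 → R) (w : R) : ev2 φ p w Polynomial.X = w := by
  simp [ev2]

theorem ev2_C (φ : L →+* R) (p : Fin 3 → R) (w : R) (a : MvPolynomial (Fin 2) L) :
    ev2 φ p w (Polynomial.C a) = eval₂Hom φ ![p 1, p 2] a := by
  simp [ev2]

theorem ev2_cq (φ : L →+* R) (p : Fin 3 → R) (w : R) (a : L) : ev2 φ p w (cq a) = φ a := by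
  simp [ev2, cq]

theorem ev3_cc (φ : L →+* R) (ρ : Fin 3 → R) (ζ : R) (a : L) : ev3 φ ρ ζ (cc a) = φ a := by
  simp [ev3, cc]

theorem ev3_rv (φ : L →+* R) (ρ : Fin 3 → R) (ζ : R) (i : Fin 3) : ev3 φ ρ ζ (rv i) = ρ i := by
  simp [ev3, rv]

theorem ev3_zv (φ : L →+* R) (ρ : Fin 3 → R) (ζ : R) : ev3 φ ρ ζ zv = ζ := by
  simp [ev3, zv]

/-- two ring homomorphisms on `Q2` agree -/
theorem ev2_ext (F : Q2 L →+* R) (φ : L →+* R) (p : Fin 3 → R) (w : R)
    (hc : ∀ a, F (cq a) = φ a) (h1 : F (Polynomial.C (X 0)) = p 1)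
    (h2 : F (Polynomial.C (X 1)) = p 2) (hw : F Polynomial.X = w) : F = ev2 φ p w := by
  apply Polynomial.ringHom_ext'
  · apply MvPolynomial.ringHom_ext
    · intro a
      have := hc a
      simp only [cq, RingHom.comp_apply] at this
      simp [ev2, this]
    · intro i
      fin_cases i
      · simpa [ev2] using h1
      · simpa [ev2] using h2
  · simpa [ev2] using hw

/-- general form of the value of the chart expression -/
theorem ev3_Psi (φ : L →+* R) (m : ℕ) (x g : Fin 3 → L) (G : L) (H : Fin 3 → Fin 3 → L) (s : L)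
    (ρ : Fin 3 → R) (ζ : R) (V : Q2 L) :
    ev3 φ ρ ζ (Psi m x g G H s V) =
      ev2 φ (fun i => φ s ^ 2 * (φ (g i) * dp (fun i => φ (x i)) ρ - φ (m * G) * ρ i))
        (φ (m * G) * ζ - φ s ^ 6 * hq (fun i j => φ (H i j)) (cr (fun i => φ (g i)) ρ)
          (cr (fun i => φ (g i)) ρ) * dp (fun i => φ (x i)) ρ) V := by
  have h : (ev3 φ ρ ζ).comp (Psi m x g G H s) =
      ev2 φ (fun i => φ s ^ 2 * (φ (g i) * dp (fun i => φ (x i)) ρ - φ (m * G) * ρ i))
        (φ (m * G) * ζ - φ s ^ 6 * hq (fun i j => φ (H i j)) (cr (fun i => φ (g i)) ρ)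
          (cr (fun i => φ (g i)) ρ) * dp (fun i => φ (x i)) ρ) := by
    apply ev2_ext
    · intro a
      rw [RingHom.comp_apply, Psi, ev2_cq, ev3_cc]
    · rw [RingHom.comp_apply, Psi, ev2_C]
      simp [pc, muc, dp, ev3_cc, ev3_rv, Fin.sum_univ_three]
    · rw [RingHom.comp_apply, Psi, ev2_C]
      simp [pc, muc, dp, ev3_cc, ev3_rv, Fin.sum_univ_three]
    · rw [RingHom.comp_apply, Psi, ev2_X]
      simp [wc, muc, gxr, hq, cr, dp, ev3_cc, ev3_rv, ev3_zv, Fin.sum_univ_three]
  exact congrArg (fun F : Q2 L →+* R => F V) h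

end

theorem pf_VAL : T_VAL := by
  intro L R _ _ φ m x g G H s hD q t e hq1 ht he V
  rw [ev3_Psi]
  have eul : dp (fun i => φ (x i)) (fun i => φ (g i)) = φ (m * G) := by
    rw [← hD.eul]; simp [dp]
  generalize hg : (fun i => φ (g i)) = g' at *
  generalize hx : (fun i => φ (x i)) = x' at *
  generalize hH : (fun i j => φ (H i j)) = H' at *
  have hg' : ∀ i, φ (g i) = g' i := fun i => congrFun hg i
  simp only [hg']
  generalize φ (m * G) = M at *
  generalize φ s = σ
  have hc : cr g' (cr q e) = q := by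
    funext i
    simp only [dp, Fin.sum_univ_three] at hq1 he
    fin_cases i <;> simp [cr] <;>
      first
      | linear_combination (q 0) * he - (e 0) * hq1
      | linear_combination (q 1) * he - (e 1) * hq1
      | linear_combination (q 2) * he - (e 2) * hq1
  rw [hc]
  have h1 : ∀ i, g' i * dp x' (cr q e) - M * cr q e i = cr x' q i := by
    intro i
    have h2 := congrFun hc
    have e2 : cr x' (cr g' (cr q e)) i = g' i * dp x' (cr q e) - dp x' g' * cr q e i := by
      fin_cases i <;> simp [cr, dp, Fin.sum_univ_three] <;> ring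
    rw [← eul, ← e2, hc]
  have h3 : M * (σ ^ 6 * dp t e) - σ ^ 6 * hq H' q q * dp x' (cr q e) = σ ^ 6 * dp x' t := by
    have e3 : ∀ i, t i = dp t e * g' i - hq H' q q * cr q e i := by
      intro i
      have e4 : cr (cr g' t) e i = t i * dp g' e - g' i * dp t e := by
        fin_cases i <;> simp [cr, dp, Fin.sum_univ_three] <;> ring
      have e5 : cr (cr g' t) e i = - (hq H' q q * cr q e i) := by
        have : cr g' t = fun i => - (hq H' q q * q i) := funext ht
        rw [this]
        simp only [cr]; ring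
      rw [he] at e4
      linear_combination -e4 + e5
    have e6 : dp x' t = dp t e * dp x' g' - hq H' q q * dp x' (cr q e) := by
      generalize dp t e = A at e3
      generalize hq H' q q = B at e3
      generalize cr q e = ρ at e3
      simp only [dp, Fin.sum_univ_three]
      linear_combination x' 0 * e3 0 + x' 1 * e3 1 + x' 2 * e3 2
    rw [e6, eul]; ring
  have h4 : (fun i => σ ^ 2 * (g' i * dp x' (cr q e) - M * cr q e i)) =
      fun i => σ ^ 2 * cr x' q i := by
    funext i; rw [h1]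
  rw [h3, h4]

end Pool.Agent.H92.SF
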