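import Pool.Agent.H92.SF.LUT
import Pool.Agent.H3.SF.Tg1
import Pool.Agent.H92.SF.PQV

/-!
# MP_70ba79_ag, THEOREM S: assembly of T_NEG, T_MLF, T_MLT
-/

set_option autoImplicit false

namespace Pool.Agent.H92.SF

open MvPolynomial
open Pool.Agent.H84.SM (dp cr dt)
open Pool.Agent.H3.SF

theorem pf_LOV (hLNU : T_LNU) (hLON : T_LON) (hLTW : T_LTW) : T_LOV := by
  intro δ j0 c0 q hq
  obtain ⟨m1, h1⟩ := hLNU δ j0 c0 q hq
  refine ⟨m1, ?_⟩
  intro k F _ _ _ _ _ u dd J m G hm hG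
  obtain ⟨c1, c2, h2⟩ := hLON k F u dd δ j0 c0 J m G hG.toBs
  obtain ⟨n1, h3⟩ := h1 m c1 c2 hm
  refine ⟨n1, fun n hn => ?_⟩
  refine h3 (fun t => Module.finrank k (BB k u (eu u dd) t))
    (fun τ => Module.finrank k (E u dd J m G n τ)) n hn ?_ hG.up hG.lo (fun τ hτ => h2 n τ hτ)
    (fun τ => hLTW k F u dd δ j0 c0 J m G hG n τ)
  intro t ht
  rw [hG.neg t ht]
  exact finrank_bot k F

section TR

variable {k F : Type} [Field k] [IsAlgClosed k] [CharZero k] [Field F] [Algebra k F]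

/-- transport of `Mlt` -/
theorem mlt_tr (hTRY : T_TRY) {u : Fin 3 → F} {dd : Fin 3 → Derivation k F F} {δ j0 c0 : ℕ}
    {J : MvPolynomial (Fin 3) k} {m : ℕ} {G : F} (h : Bs u dd δ j0 c0 J m G) (a b : k) (n : ℕ)
    (P : Q2 F) (hP : Mlt u dd J j0 m G n (Tch a b u P)) :
    Mlt (uch a b u) (dch a b dd) (sch a b J) j0 m G n P := by
  obtain ⟨t1, t2, t3, t4, t5, t6, t7, t8⟩ := hTRY k F u dd δ j0 c0 J m G h a b
  intro t r V hV hr
  have h1 := hP t r _ ((t5 n _ V).mp hV) hr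
  obtain ⟨W, hW⟩ := h1
  obtain ⟨W', rfl⟩ := t1.2 W
  refine ⟨W', t1.1 ?_⟩
  rw [hW, map_mul, map_pow]

theorem X_pos {δ m n : ℕ} (hδ : 1 ≤ δ) (hm : 1 ≤ m) (hn : 1 ≤ n) :
    0 < (δ : ℤ) * m ^ 2 * n ^ 4 := by
  have h1 : (0 : ℤ) < δ := by exact_mod_cast hδ
  have h2 : (0 : ℤ) < m := by exact_mod_cast hm
  have h3 : (0 : ℤ) < n := by exact_mod_cast hn
  positivity

end TR

theorem pf_NEG (hLOV : T_LOV) (hNUN : T_NUN) (hUPN : T_UPN) (hTRY : T_TRY) (hPEN : T_PEN) :
    T_NEG := by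
  intro δ j0 c0
  by_cases hδ : 1 ≤ δ
  swap
  · refine ⟨0, ?_⟩
    intro k F _ _ _ _ _ u dd J hS m G _ _
    exact absurd hS.pos hδ
  obtain ⟨m1, h1⟩ := hLOV δ j0 c0 2 (by norm_num)
  obtain ⟨m2, h2⟩ := hNUN δ j0 hδ
  refine ⟨max m1 (max m2 (j0 + 4)), ?_⟩
  intro k F _ _ _ _ _ u dd J hS m G hm hC
  have hm1 : m1 ≤ m := le_trans (le_max_left _ _) hm
  have hm2 : m2 ≤ m := le_trans (le_trans (le_max_left _ _) (le_max_right _ _)) hm
  have hm3 : j0 + 4 ≤ m := le_trans (le_trans (le_max_right _ _) (le_max_right _ _)) hm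
  have hB := Bs.of hS hC hm3
  obtain ⟨a, b, hG, -⟩ := hPEN k F u dd δ j0 c0 J m G hS hC hm3 0 1 (isHomogeneous_one _ _)
    one_ne_zero
  obtain ⟨n1, h3⟩ := h1 k F _ _ _ m G hm1 hG
  obtain ⟨n2, h4⟩ := h2 m hm2
  obtain ⟨t1, t2, t3, t4, t5, t6, t7, t8⟩ := hTRY k F u dd δ j0 c0 J m G hB a b
  by_contra hcon
  push Not at hcon
  have hn1 : n1 ≤ max n1 (max n2 1) := le_max_left _ _
  have hn2 : n2 ≤ max n1 (max n2 1) := le_trans (le_max_left _ _) (le_max_right _ _)
  have hn3 : 1 ≤ max n1 (max n2 1) := le_trans (le_max_right _ _) (le_max_right _ _)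
  generalize max n1 (max n2 1) = n at hn1 hn2 hn3
  have h5 := h3 n hn1
  have h6 := h4 n hn2
  have h7 := hUPN k F _ _ δ j0 c0 _ m G hG n (by
    intro V hV
    by_contra hne
    refine hcon n (2 * n * j0 + 1) (Tch a b u V) (by omega) ?_ ?_
    · intro h0
      apply hne
      apply t1.1
      rw [h0, map_zero]
    · exact (t5 n _ V).mp hV)
  have h8 := X_pos hδ (by omega : 1 ≤ m) hn3
  push_cast at h5 h6 h7
  linarith

theorem three_le {F : Type} [Field F] {w : ℕ} {P : Q2 F} (hP : P ≠ 0) (h : WH w P) :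
    3 * P.natDegree ≤ w := by
  by_contra hcon
  push Not at hcon
  have h1 := (h P.natDegree).2 hcon
  exact hP (Polynomial.leadingCoeff_eq_zero.mp h1)

theorem pf_MLF (hLOV : T_LOV) (hNUF : T_NUF) (hUPG : T_UPG) (hTRY : T_TRY) (hPEN : T_PEN)
    (hLMG : T_LMG) (hCTP : T_CTP) : T_MLF := by
  intro δ j0 c0
  by_cases hδ : 1 ≤ δ
  swap
  · refine ⟨0, ?_⟩
    intro k F _ _ _ _ _ u dd J hS m G _ _
    exact absurd hS.pos hδ
  obtain ⟨m1, h1⟩ := hLOV δ j0 c0 40 (by norm_num)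
  obtain ⟨m2, h2⟩ := hNUF δ j0 hδ
  refine ⟨max m1 (max m2 (j0 + 4)), ?_⟩
  intro k F _ _ _ _ _ u dd J hS m G hm hC w τ P hw hP hdeg hTw
  have hm1 : m1 ≤ m := le_trans (le_max_left _ _) hm
  have hm2 : m2 ≤ m := le_trans (le_trans (le_max_left _ _) (le_max_right _ _)) hm
  have hm3 : j0 + 4 ≤ m := le_trans (le_trans (le_max_right _ _) (le_max_right _ _)) hm
  have hB := Bs.of hS hC hm3
  obtain ⟨a, b, hG, -⟩ := hPEN k F u dd δ j0 c0 J m G hS hC hm3 0 1 (isHomogeneous_one _ _)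
    one_ne_zero
  obtain ⟨t1, t2, t3, t4, t5, t6, t7, t8⟩ := hTRY k F u dd δ j0 c0 J m G hB a b
  obtain ⟨P', rfl⟩ := t1.2 P
  have hP' : P' ≠ 0 := by
    rintro rfl
    exact hP (map_zero _)
  rw [t6] at hdeg
  have hTw' := (t4 w τ P').mpr hTw
  have h3d := three_le hP' hTw'.1
  obtain ⟨a0, ha0⟩ := hCTP k F _ _ δ j0 c0 _ m G hG.toBs P' hP'
  obtain ⟨n1, h3⟩ := h1 k F _ _ _ m G hm1 hG
  obtain ⟨n2, h4⟩ := h2 m w P'.natDegree hm2 hw hdeg h3d
  by_contra hcon
  push Not at hcon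
  have hn1 : n1 ≤ max n1 (max n2 1) := le_max_left _ _
  have hn2 : n2 ≤ max n1 (max n2 1) := le_trans (le_max_left _ _) (le_max_right _ _)
  have hn3 : 1 ≤ max n1 (max n2 1) := le_trans (le_max_right _ _) (le_max_right _ _)
  generalize max n1 (max n2 1) = n at hn1 hn2 hn3
  have h5 := h3 n hn1
  have h6 := h4 n hn2
  have h7 := hUPG k F _ _ δ j0 c0 _ m G hG w τ P' hP' (by omega) h3d hTw' a0 ha0 0 (by
    intro i e W hW
    have h9 := hLMG k F _ _ δ j0 c0 _ m G hG.toBs 1 0 1 1 (isHomogeneous_one _ _)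
      (by simp) isRelPrime_one_left (by simp) i e W (fun x hx => ⟨(hW x hx).1, (hW x hx).2.1, by
        rw [one_pow, mul_one]
        exact (hW x hx).2.1⟩)
    exact h9) n (mlt_tr hTRY hB a b n P' (hcon n hn3))
  have h8 := X_pos hδ (by omega : 1 ≤ m) hn3
  push_cast at h5 h6 h7
  linarith

/-- powers of combinations -/
theorem pow_comb {κ A F : Type} [Field κ] [CommRing A] [Field F] [Algebra κ F] {ι : Type}
    (φ : A →+* F) (hκ : ∀ c : κ, φ.IsIntegralElem (algebraMap κ F c)) {x : F} {i : ℕ} (y : ι → F)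
    (h0 : φ.IsIntegralElem x) (hy : ∀ j, φ.IsIntegralElem (x * y j ^ i)) {z : F}
    (hz : z ∈ Submodule.span κ (Set.range y)) : φ.IsIntegralElem (x * z ^ i) := by
  induction hz using Submodule.span_induction with
  | mem z hz =>
    obtain ⟨j, rfl⟩ := hz
    exact hy j
  | zero =>
    rcases Nat.eq_zero_or_pos i with rfl | hi
    · simpa using h0
    · rw [zero_pow (by omega), mul_zero]
      exact φ.isIntegralElem_zero
  | add z z' _ _ h1 h2 =>
    have h3 := Pool.Agent.H62.HIL.pf_MON' φ h1 h2 (φ.isIntegralElem_one) (φ.isIntegralElem_one)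
    rwa [one_mul, one_mul] at h3
  | smul c z _ h1 =>
    rw [Algebra.smul_def, mul_pow, mul_left_comm]
    rw [← map_pow]
    exact RingHom.IsIntegralElem.mul _ (hκ (c ^ i)) h1

/-- coefficients of the chart for weight 3 -/
theorem cf_one {k F : Type} [Field k] [CharZero k] [Field F] [Algebra k F] (u : Fin 3 → F)
    (dd : Fin 3 → Derivation k F F) (J : MvPolynomial (Fin 3) k) (m : ℕ) (G : F) (P : Q2 F)
    (h1 : P.coeff 1 = 1) (h3 : WH 3 P) :
    cf u dd J m G P 1 0 = m * G ∧ (∀ a, a ≠ 0 → cf u dd J m G P 1 a = 0) ∧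
      ∀ j a, 2 ≤ j → cf u dd J m G P j a = 0 := by
  have : CharZero F := charZero_of_injective_algebraMap (algebraMap k F).injective
  have hd : Polynomial.derivative P = 1 := by
    ext1 j
    rw [Polynomial.coeff_derivative, Polynomial.coeff_one]
    rcases Nat.eq_zero_or_pos j with rfl | hj
    · rw [zero_add, h1]
      simp
    · rw [(h3 (j + 1)).2 (by omega), zero_mul, if_neg (by omega)]
  have h4 := pf_PDW F m u (grd dd G) G (hes dd G) (aeval u J) P
  rw [hd, map_one, mul_one] at h4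
  have h5 : ∀ j, ((Ps u dd J m G P).coeff (j + 1)) * ((j : MvPolynomial (Fin 3) F) + 1) =
      if j = 0 then C ((m : F) * G) else 0 := by
    intro j
    have h6 := congrArg (fun W => Polynomial.coeff W j) h4
    simp only [Polynomial.coeff_derivative] at h6
    rw [show Ps u dd J m G P = Psi m u (grd dd G) G (hes dd G) (aeval u J) P from rfl, h6]
    show (Polynomial.C (C ((m : F) * G)) : C3 F).coeff j = _
    rw [Polynomial.coeff_C]
  have h6 : (Ps u dd J m G P).coeff 1 = C ((m : F) * G) := by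
    have h7 := h5 0
    simpa using h7
  refine ⟨?_, ?_, ?_⟩
  · rw [cf, h6, coeff_zero_C]
  · intro a ha
    rw [cf, h6, coeff_C, if_neg (Ne.symm ha)]
  · intro j a hj
    obtain ⟨j, rfl⟩ : ∃ i, j = i + 1 := ⟨j - 1, by omega⟩
    have h7 := h5 j
    rw [if_neg (by omega)] at h7
    have h8 : ((j : MvPolynomial (Fin 3) F) + 1) ≠ 0 := by
      exact_mod_cast Nat.succ_ne_zero j
    rw [cf, (mul_eq_zero.mp h7).resolve_right h8, coeff_zero]

/-- the substitution `sch` -/
theorem sch_sch {k : Type} [Field k] (a b : k) (p : MvPolynomial (Fin 3) k) :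
    sch (-a) (-b) (sch a b p) = p := by
  have h : (sch (-a) (-b)).comp (sch a b) = AlgHom.id k _ := by
    ext i
    fin_cases i <;> simp [sch]
  exact congrArg (fun f => f p) h

theorem sch_rel {k : Type} [Field k] (a b : k) {A H : MvPolynomial (Fin 3) k}
    (h : IsRelPrime A H) : IsRelPrime (sch a b A) (sch a b H) := by
  intro d h1 h2
  have h3 : sch (-a) (-b) d ∣ A := by
    have := map_dvd (sch (-a) (-b)) h1
    rwa [sch_sch] at this
  have h4 : sch (-a) (-b) d ∣ H := by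
    have := map_dvd (sch (-a) (-b)) h2
    rwa [sch_sch] at this
  have h5 := (h h3 h4).map (sch a b)
  have h6 := sch_sch (-a) (-b) d
  rw [neg_neg, neg_neg] at h6
  rwa [h6] at h5

theorem sch_hom {k : Type} [Field k] (a b : k) {H : MvPolynomial (Fin 3) k} {h : ℕ}
    (hH : H.IsHomogeneous h) : (sch a b H).IsHomogeneous h := by
  have h2 : ∀ i, ((![X 0 + C a * X 2, X 1 + C b * X 2, X 2] : Fin 3 → MvPolynomial (Fin 3) k)
      i).IsHomogeneous 1 := by
    intro i
    fin_cases i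
    · exact (isHomogeneous_X _ _).add (by simpa using (isHomogeneous_C _ a).mul (isHomogeneous_X _ _))
    · exact (isHomogeneous_X _ _).add (by simpa using (isHomogeneous_C _ b).mul (isHomogeneous_X _ _))
    · exact isHomogeneous_X _ _
  have h1 : (sch a b H).IsHomogeneous (1 * h) := hH.aeval _ h2
  rwa [one_mul] at h1

theorem norm_eq_of_eq {k F : Type} [Field k] [Field F] [Algebra k F] {K1 K2 : IntermediateField k F}
    (h : K1 = K2) (x : F) : ((Algebra.norm K1 x : K1) : F) = ((Algebra.norm K2 x : K2) : F) := by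
  subst h
  rfl

theorem itg_alg {k F ι : Type} [Field k] [Field F] [Algebra k F] (v : ι → F) (c : k) :
    Itg k v (algebraMap k F c) :=
  (Bb k v).algebraMap_mem c

theorem itg_aev {k F ι : Type} [Field k] [Field F] [Algebra k F] (v : ι → F)
    (p : MvPolynomial ι k) : Itg k v (aeval v p) :=
  ((aeval v : MvPolynomial ι k →ₐ[k] F) : MvPolynomial ι k →+* F).isIntegralElem_map

theorem pf_MLT (hLOV : T_LOV) (hNUT : T_NUT) (hUPG : T_UPG) (hTRX : T_TRX) (hTRY : T_TRY)
    (hPEN : T_PEN) (hLMG : T_LMG) (hFRK : T_FRK) (hDEG : T_DEG)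
    (hDEN : Pool.Agent.H3.SF.T_DEN) (hSF1 : Pool.Agent.H3.SF.T_SF1) : T_MLT := by
  intro δ j0 c0 q hq
  by_cases hδ : 1 ≤ δ
  swap
  · refine ⟨0, ?_⟩
    intro k F _ _ _ _ _ u dd J hS m G _ _
    exact absurd hS.pos hδ
  obtain ⟨m1, h1⟩ := hLOV δ j0 c0 (100 * δ * q) (by nlinarith [Nat.mul_le_mul hδ hq])
  obtain ⟨m2, h2⟩ := hNUT δ j0 q hδ hq
  refine ⟨max m1 (max m2 (j0 + 4)), ?_⟩
  intro k F _ _ _ _ _ u dd J hS m G hm hC P hP1 hTw hex
  have hm1 : m1 ≤ m := le_trans (le_max_left _ _) hm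
  have hm2 : m2 ≤ m := le_trans (le_trans (le_max_left _ _) (le_max_right _ _)) hm
  have hm3 : j0 + 4 ≤ m := le_trans (le_trans (le_max_right _ _) (le_max_right _ _)) hm
  have hB := Bs.of hS hC hm3
  have : CharZero F := charZero_of_injective_algebraMap (algebraMap k F).injective
  have hmF : (m : F) ≠ 0 := by
    exact_mod_cast (by omega : m ≠ 0)
  obtain ⟨j, a1, hbad⟩ := hex
  change ∀ (h : ℕ) (H : MvPolynomial (Fin 3) k), q * h < m → H.IsHomogeneous h → H ≠ 0 →
    ¬ Itg k u (aeval u H * (cf u dd J m G P j a1 / G)) at hbad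
  obtain ⟨e1, e2, e3⟩ := cf_one u dd J m G P hP1 hTw.1
  have hj : j = 0 := by
    by_contra hj
    refine hbad 0 1 (by omega) (isHomogeneous_one _ _) one_ne_zero ?_
    rw [map_one, one_mul]
    by_cases hj1 : j = 1
    · subst hj1
      by_cases ha : a1 = 0
      · subst ha
        rw [e1, mul_div_assoc, div_self hB.ne, mul_one]
        simpa using itg_alg (k := k) u (m : k)
      · rw [e2 a1 ha, zero_div]
        exact (Bb k u).zero_mem
    · rw [e3 j a1 (by omega), zero_div]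
      exact (Bb k u).zero_mem
  subst hj
  set γ : F := cf u dd J m G P 0 a1 / (m * G) with hγ
  have hGm : (m : F) * G ≠ 0 := mul_ne_zero hmF hB.ne
  have hγd : Hm k (eu u dd) ((2 * m + 6 * j0 - 3 : ℕ) : ℤ) γ := by
    have h3 := (hDEG k F u dd δ j0 c0 J m G hB 3 3 P hTw).1 0 a1
    have h4 := hB.hom
    have h5 : (((2 * m + 6 * j0 - 3 : ℕ) : ℤ)) = 2 * m + 6 * j0 - 3 := by omega
    have h6 : eu u dd ((m : F) * G) = (m : F) * ((m : F) * G) := by
      have h7 : (m : F) * G = (m : k) • G := by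
        rw [Algebra.smul_def, map_natCast]
      rw [h7, Derivation.map_smul]
      unfold Hm at h4
      rw [h4, mul_smul_comm]
      push_cast
      rfl
    have h8 : cf u dd J m G P 0 a1 = γ * (m * G) := by
      rw [hγ, div_mul_cancel₀ _ hGm]
    unfold Hm at h3 ⊢
    rw [h8, Derivation.leibniz, h6, smul_eq_mul, smul_eq_mul] at h3
    rw [h5]
    apply mul_right_cancel₀ hGm
    push_cast at h3 ⊢
    linear_combination h3
  obtain ⟨h, a', H, A, f, hH0, hHh, hHγ, hf, hA0, hAh, hrel, hnorm⟩ :=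
    hDEN k F 3 δ u (eu u dd) (hSF1 k F u dd δ j0 c0 J hS).1 (by norm_num) _ γ hγd
  have hgain : m ≤ q * h := by
    by_contra hcon
    push Not at hcon
    refine hbad h H hcon hHh hH0 ?_
    have h3 : aeval u H * (cf u dd J m G P 0 a1 / G) = algebraMap k F m * (aeval u H * γ) := by
      rw [hγ, map_natCast]
      have := hB.ne
      field_simp
    rw [h3]
    exact (Bb k u).mul_mem (itg_alg u _) hHγ
  obtain ⟨a, b, hG, hHc⟩ := hPEN k F u dd δ j0 c0 J m G hS hC hm3 h H hHh hH0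
  obtain ⟨x1, x2, x3, x4, x5⟩ := hTRX k F u dd δ j0 c0 J m G hB a b
  obtain ⟨t1, t2, t3, t4, t5, t6, t7, t8⟩ := hTRY k F u dd δ j0 c0 J m G hB a b
  obtain ⟨f1, f2, f3, f4, f5, f6⟩ := hFRK k F _ _ δ j0 c0 _ m G hG.toBs
  obtain ⟨P', rfl⟩ := t1.2 P
  have hP1' := (t7 P').mp hP1
  have hTw' := (t4 3 3 P').mpr hTw
  have hP' : P' ≠ 0 := by
    rintro rfl
    simp at hP1'
  have h3d := three_le hP' hTw'.1
  have hdeg : P'.natDegree = 1 := by
    have h3 : 1 ≤ P'.natDegree := Polynomial.le_natDegree_of_ne_zero (by rw [hP1']; exact one_ne_zero)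
    omega
  obtain ⟨g1, g2, g3⟩ := cf_one (uch a b u) (dch a b dd) (sch a b J) m G P' hP1' hTw'.1
  obtain ⟨n1, h3⟩ := h1 k F _ _ _ m G hm1 hG
  obtain ⟨n2, h4⟩ := h2 m h hm2 hgain
  by_contra hcon
  push Not at hcon
  have hn1 : n1 ≤ max n1 (max n2 1) := le_max_left _ _
  have hn2 : n2 ≤ max n1 (max n2 1) := le_trans (le_max_left _ _) (le_max_right _ _)
  have hn3 : 1 ≤ max n1 (max n2 1) := le_trans (le_max_right _ _) (le_max_right _ _)
  generalize max n1 (max n2 1) = n at hn1 hn2 hn3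
  have h5 := h3 n hn1
  have h6 := h4 n hn2
  have ha0 : cf (uch a b u) (dch a b dd) (sch a b J) m G P' P'.natDegree 0 ≠ 0 := by
    rw [hdeg, g1]
    exact hGm
  have h7 := hUPG k F _ _ δ j0 c0 _ m G hG 3 3 P' hP' (by norm_num) h3d hTw' 0 ha0 h (by
    intro i e W hW
    refine hLMG k F _ _ δ j0 c0 _ m G hG.toBs (aeval u f + γ) h (sch a b H) (sch a b A)
      (sch_hom a b hHh) hHc (sch_rel a b hrel) ?_ i e W ?_
    · rw [x4, x4, norm_eq_of_eq x3]
      exact hnorm
    · intro x hx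
      obtain ⟨w1, w2, w3⟩ := hW x hx
      refine ⟨w1, w2, ?_⟩
      have y1 : ItK k (uch a b u) (aeval u f) := f4 _ ((x2 _).mpr (itg_aev u f))
      have y2 : ItK k (uch a b u) (x * aeval u f ^ i) :=
        RingHom.IsIntegralElem.mul _ w2 ((Bb (kap k (uch a b u)) ![uch a b u 0, uch a b u 2]).pow_mem y1 i)
      have y3 : ItK k (uch a b u) (x * γ ^ i) := by
        refine pow_comb (κ := k) _ (fun c => ?_) (x := x) (i := i)
          (fun a'' => cf (uch a b u) (dch a b dd) (sch a b J) m G P' 0 a'' / (m * G)) w2 ?_ ?_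
        · exact itg_alg (k := kap k (uch a b u)) _ (algebraMap k _ c)
        · intro a''
          have y4 := w3 0 a''
          rw [hdeg, g1] at y4
          exact y4
        · have y5 := t8 P' 0 a1
          have y6 := Submodule.mem_map_of_mem (f := LinearMap.mulRight k ((m * G : F)⁻¹)) y5
          rw [Submodule.map_span, ← Set.range_comp] at y6
          have y8 : (LinearMap.mulRight k ((m * G : F)⁻¹) ∘ fun a'' =>
              cf (uch a b u) (dch a b dd) (sch a b J) m G P' 0 a'') =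
              fun a'' => cf (uch a b u) (dch a b dd) (sch a b J) m G P' 0 a'' / (m * G) := by
            funext a''
            simp only [Function.comp_apply, LinearMap.mulRight_apply, div_eq_mul_inv]
          rw [y8] at y6
          rw [hγ, div_eq_mul_inv]
          exact y6
      have y7 := Pool.Agent.H62.HIL.pf_MON' _ y2 y3 (RingHom.isIntegralElem_one _)
        (RingHom.isIntegralElem_one _)
      rwa [one_mul, one_mul] at y7) n (mlt_tr hTRY hB a b n P' (hcon n hn3))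
  rw [hdeg] at h7
  have h8 := X_pos hδ (by omega : 1 ≤ m) hn3
  have h9 : (0 : ℤ) < 100 * δ * q := by
    have h10 : 1 ≤ δ * q := Nat.mul_le_mul hδ hq
    have h11 : (1 : ℤ) ≤ δ * q := by exact_mod_cast h10
    linarith
  push_cast at h5 h6 h7
  have h10 : (162 * (100 * (δ : ℤ) * q)) * (Module.finrank k (E (uch a b u) (dch a b dd)
      (sch a b J) m G n 0) : ℤ) ≤ (162 * (100 * (δ : ℤ) * q)) * UU δ j0 m 3 1 h n := by
    apply mul_le_mul_of_nonneg_left h7
    positivity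
  nlinarith

end Pool.Agent.H92.SF
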