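import Pool.Agent.H92.SF.LU
import Pool.Agent.H3.SF.Bnd

/-!
# MP_70ba79_ag, THEOREM S: lower and upper bounds for the spaces of sections: targets
-/

set_option autoImplicit false

namespace Pool.Agent.H92.SF

open MvPolynomial
open Pool.Agent.H84.SM (dp cr dt)
open Pool.Agent.H3.SF

/-! ### General rows -/

/-- HMR: homogeneous integral relation -/
def T_HMR : Prop := ∀ (k F ι : Type) [Field k] [CharZero k] [Field F] [Algebra k F] (v : ι → F)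
  (D : Derivation k F F) (d s : ℕ) (z : F), 1 ≤ d → (∀ i, D (v i) = (d : F) * v i) →
  D z = ((d * s : ℕ) : F) * z → Itg k v z →
  ∃ (N : ℕ) (A : ℕ → MvPolynomial ι k), 1 ≤ N ∧
    (∀ r, r < N → (A r).IsHomogeneous (s * (N - r))) ∧
    z ^ N + ∑ r ∈ Finset.range N, aeval v (A r) * z ^ r = 0

/-- HIV: homogeneous integral elements and valuation rings -/
def T_HIV : Prop := ∀ (k F : Type) [Field k] [IsAlgClosed k] [CharZero k] [Field F] [Algebra k F]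
  (u : Fin 3 → F) (dd : Fin 3 → Derivation k F F) (δ j0 c0 : ℕ) (J : MvPolynomial (Fin 3) k)
  (m : ℕ) (G : F), Bs u dd δ j0 c0 J m G →
  ∀ (V : ValuationSubring F), (∀ c : k, algebraMap k F c ∈ V) → ∀ i, (∀ j, u j / u i ∈ V) →
  ∀ (e : ℤ) (z : F), Itg k u z → Hm k (eu u dd) e z → z / u i ^ e ∈ V

/-- DAT: elementary consequences -/
def T_DAT : Prop := ∀ (k F : Type) [Field k] [IsAlgClosed k] [CharZero k] [Field F] [Algebra k F]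
  (u : Fin 3 → F) (dd : Fin 3 → Derivation k F F) (δ j0 c0 : ℕ) (J : MvPolynomial (Fin 3) k)
  (m : ℕ) (G : F), Bs u dd δ j0 c0 J m G →
  Dat m u (grd dd G) G (hes dd G) ∧ (∀ i, u i ≠ 0) ∧ aeval u J ≠ 0 ∧ (m : F) * G ≠ 0 ∧
  (∀ i, Hm k (eu u dd) 1 (u i)) ∧ Hm k (eu u dd) j0 (aeval u J) ∧
  (∀ l, Hm k (eu u dd) ((m : ℤ) - 1) (dd l G)) ∧
  (∀ i l, Hm k (eu u dd) ((m : ℤ) - 2) (dd i (dd l G))) ∧
  (∀ l, Itg k u (aeval u J * dd l G)) ∧ ∀ i l, Itg k u (aeval u J ^ 2 * dd i (dd l G))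

/-- DEG: degrees of the coefficients in the chart -/
def T_DEG : Prop := ∀ (k F : Type) [Field k] [IsAlgClosed k] [CharZero k] [Field F] [Algebra k F]
  (u : Fin 3 → F) (dd : Fin 3 → Derivation k F F) (δ j0 c0 : ℕ) (J : MvPolynomial (Fin 3) k)
  (m : ℕ) (G : F), Bs u dd δ j0 c0 J m G → ∀ (n : ℕ) (τ : ℤ) (V : Q2 F), Tw u dd n τ V →
  (∀ (j : ℕ) (a : Fin 3 →₀ ℕ), Hm k (eu u dd)
    (τ + n * ((m : ℤ) + 2 * j0 - 2) - j * (2 * m + 6 * j0 - 3)) (cf u dd J m G V j a)) ∧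
  ∀ j a, cf u dd J m G V j a ≠ 0 → a 0 + a 1 + a 2 + 3 * j = n

/-- FIN: finite dimension -/
def T_FIN : Prop := ∀ (k F : Type) [Field k] [IsAlgClosed k] [CharZero k] [Field F] [Algebra k F]
  (u : Fin 3 → F) (dd : Fin 3 → Derivation k F F) (δ j0 c0 : ℕ) (J : MvPolynomial (Fin 3) k)
  (m : ℕ) (G : F), Bs u dd δ j0 c0 J m G → ∀ (n : ℕ) (τ : ℤ),
  Module.Finite k (E u dd J m G n τ)

/-- FAC: factors -/
def T_FAC : Prop := ∀ (k F : Type) [Field k] [IsAlgClosed k] [CharZero k] [Field F] [Algebra k F]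
  (u : Fin 3 → F) (dd : Fin 3 → Derivation k F F) (δ j0 c0 : ℕ) (J : MvPolynomial (Fin 3) k)
  (m : ℕ) (G : F), Bs u dd δ j0 c0 J m G → ∀ (n w i : ℕ) (τ τP : ℤ) (P N : Q2 F),
  Tw u dd w τP P → Tw u dd n τ (P ^ i * N) → P ^ i * N ≠ 0 →
  w * i ≤ n ∧ Tw u dd (n - w * i) (τ - i * τP) N

/-- CTP: the coefficient of the top power of `ζ` -/
def T_CTP : Prop := ∀ (k F : Type) [Field k] [IsAlgClosed k] [CharZero k] [Field F] [Algebra k F]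
  (u : Fin 3 → F) (dd : Fin 3 → Derivation k F F) (δ j0 c0 : ℕ) (J : MvPolynomial (Fin 3) k)
  (m : ℕ) (G : F), Bs u dd δ j0 c0 J m G → ∀ (P : Q2 F), P ≠ 0 →
  ∃ a, cf u dd J m G P P.natDegree a ≠ 0

/-- FRK: the field of the pencil -/
def T_FRK : Prop := ∀ (k F : Type) [Field k] [IsAlgClosed k] [CharZero k] [Field F] [Algebra k F]
  (u : Fin 3 → F) (dd : Fin 3 → Derivation k F F) (δ j0 c0 : ℕ) (J : MvPolynomial (Fin 3) k)
  (m : ℕ) (G : F), Bs u dd δ j0 c0 J m G →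
  AlgebraicIndependent (kap k u) ![u 0, u 2] ∧
  Module.finrank (kF (kap k u) ![u 0, u 2]) F = δ ∧ (∀ c ∈ kap k u, eu u dd c = 0) ∧
  (∀ a, Itg k u a → ItK k u a) ∧
  (∀ a, a ∈ kF (kap k u) ![u 0, u 2] ↔ a ∈ kF k u) ∧ Transcendental k (u 1 / u 0)

/-! ### Upper bound -/

/-- UON: the chain -/
def T_UON : Prop := ∀ (k F : Type) [Field k] [IsAlgClosed k] [CharZero k] [Field F] [Algebra k F]
  (u : Fin 3 → F) (dd : Fin 3 → Derivation k F F) (δ j0 c0 : ℕ) (J : MvPolynomial (Fin 3) k)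
  (m : ℕ) (G : F), Bs u dd δ j0 c0 J m G → ∀ (n : ℕ) (τ : ℤ) (W : Submodule (kap k u) (Q2 F)),
  Module.Finite (kap k u) W → (∀ V ∈ E u dd J m G n τ, V ∈ W) →
  Module.finrank k (E u dd J m G n τ) ≤
    Module.finrank k (E u dd J m G n (τ - 1)) + Module.finrank (kap k u) W

/-- BAS: the line does not meet `G = dd 2 G = 0` -/
def T_BAS : Prop := ∀ (k F : Type) [Field k] [IsAlgClosed k] [CharZero k] [Field F] [Algebra k F]
  (u : Fin 3 → F) (dd : Fin 3 → Derivation k F F) (δ j0 c0 : ℕ) (J : MvPolynomial (Fin 3) k)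
  (m : ℕ) (G : F), Gd u dd δ j0 c0 J m G → ∃ (N : ℕ) (z : Fin 4 → F), (∀ i, ItK k u (z i)) ∧
  u 0 ^ N = G * z 0 + aeval u J * dd 2 G * z 1 ∧ u 2 ^ N = G * z 2 + aeval u J * dd 2 G * z 3

/-- UTW: the leading coefficient -/
def T_UTW : Prop := ∀ (k F : Type) [Field k] [IsAlgClosed k] [CharZero k] [Field F] [Algebra k F]
  (u : Fin 3 → F) (dd : Fin 3 → Derivation k F F) (δ j0 c0 : ℕ) (J : MvPolynomial (Fin 3) k)
  (m : ℕ) (G : F), Gd u dd δ j0 c0 J m G → ∀ (n : ℕ) (V : Q2 F), WH n V →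
  (∀ j a, ItK k u (cf u dd J m G V j a)) → ∀ (s : ℕ) (a : Fin 2 →₀ ℕ),
  a 0 + a 1 + 3 * s = n → (∀ j, s < j → V.coeff j = 0) →
  (∀ a' : Fin 2 →₀ ℕ, a 0 < a' 0 → (V.coeff s).coeff a' = 0) →
  ItK k u ((V.coeff s).coeff a * G ^ (s + a 0) * aeval u J ^ (2 * (n - 3 * s)) *
    u 0 ^ (n - 3 * s))

/-- UTH: dimension of the space of sections divisible by `P ^ i` -/
def T_UTH : Prop := ∀ (k F : Type) [Field k] [IsAlgClosed k] [CharZero k] [Field F] [Algebra k F]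
  (u : Fin 3 → F) (dd : Fin 3 → Derivation k F F) (δ j0 c0 : ℕ) (J : MvPolynomial (Fin 3) k)
  (m : ℕ) (G : F), Gd u dd δ j0 c0 J m G → ∀ (w : ℕ) (τP : ℤ) (P : Q2 F), P ≠ 0 →
  Tw u dd w τP P → ∀ a0 : Fin 3 →₀ ℕ, cf u dd J m G P P.natDegree a0 ≠ 0 → ∀ (g i : ℕ),
  (∀ (e : ℤ) (W : Submodule (kap k u) F), (∀ x ∈ W, Hm k (eu u dd) e x ∧ ItK k u x ∧
    ∀ j a, ItK k u (x * (cf u dd J m G P j a / cf u dd J m G P P.natDegree a0) ^ i)) →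
    Module.Finite (kap k u) W ∧
      (Module.finrank (kap k u) W : ℤ) ≤ max 0 (δ * (e + 1) - i * g)) →
  ∀ (n : ℕ) (τ : ℤ) (W : Submodule (kap k u) (Q2 F)), (∀ V ∈ W, Tw u dd n τ V ∧
    (∀ j a, ItK k u (cf u dd J m G V j a)) ∧ P ^ i ∣ V) →
  Module.Finite (kap k u) W ∧
    (Module.finrank (kap k u) W : ℤ) ≤ SS δ j0 m w P.natDegree g n i τ

/-- CPC: coprime polynomials stay coprime on the pencil -/
def T_CPC : Prop := ∀ (k L : Type) [Field k] [Field L] [Algebra k L] (t : L),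
  Transcendental k t → ∀ (h : ℕ) (A H : MvPolynomial (Fin 3) k), H.IsHomogeneous h →
  H.coeff (Finsupp.single 2 h) ≠ 0 → IsRelPrime A H → IsRelPrime (sp t A) (sp t H)

/-- LMG: dimension of spaces of integral elements, with gain -/
def T_LMG : Prop := ∀ (k F : Type) [Field k] [IsAlgClosed k] [CharZero k] [Field F] [Algebra k F]
  (u : Fin 3 → F) (dd : Fin 3 → Derivation k F F) (δ j0 c0 : ℕ) (J : MvPolynomial (Fin 3) k)
  (m : ℕ) (G : F), Bs u dd δ j0 c0 J m G →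
  ∀ (ω : F) (h : ℕ) (H A : MvPolynomial (Fin 3) k), H.IsHomogeneous h →
  H.coeff (Finsupp.single 2 h) ≠ 0 → IsRelPrime A H →
  ((Algebra.norm (kF k u) ω : kF k u) : F) * aeval u H = aeval u A →
  ∀ (i : ℕ) (e : ℤ) (W : Submodule (kap k u) F), (∀ x ∈ W, Hm k (eu u dd) e x ∧ ItK k u x ∧
    ItK k u (x * ω ^ i)) → Module.Finite (kap k u) W ∧
      (Module.finrank (kap k u) W : ℤ) ≤ max 0 (δ * (e + 1) - i * h)

/-- TRX: change of coordinates, the data -/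
def T_TRX : Prop := ∀ (k F : Type) [Field k] [IsAlgClosed k] [CharZero k] [Field F] [Algebra k F]
  (u : Fin 3 → F) (dd : Fin 3 → Derivation k F F) (δ j0 c0 : ℕ) (J : MvPolynomial (Fin 3) k)
  (m : ℕ) (G : F), Bs u dd δ j0 c0 J m G → ∀ a b : k,
  Bs (uch a b u) (dch a b dd) δ j0 c0 (sch a b J) m G ∧
  (∀ x, Itg k (uch a b u) x ↔ Itg k u x) ∧ kF k (uch a b u) = kF k u ∧
  (∀ q, aeval (uch a b u) (sch a b q) = aeval u q) ∧
  (∀ x, eu (uch a b u) (dch a b dd) x = eu u dd x)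

/-- TRY: change of coordinates, the sections -/
def T_TRY : Prop := ∀ (k F : Type) [Field k] [IsAlgClosed k] [CharZero k] [Field F] [Algebra k F]
  (u : Fin 3 → F) (dd : Fin 3 → Derivation k F F) (δ j0 c0 : ℕ) (J : MvPolynomial (Fin 3) k)
  (m : ℕ) (G : F), Bs u dd δ j0 c0 J m G → ∀ a b : k,
  Function.Bijective (Tch a b u) ∧ (∀ c : F, Tch a b u (cq c) = cq c) ∧
  Tch a b u Polynomial.X = Polynomial.X ∧
  (∀ n τ V, Tw (uch a b u) (dch a b dd) n τ V ↔ Tw u dd n τ (Tch a b u V)) ∧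
  (∀ n τ V, V ∈ E (uch a b u) (dch a b dd) (sch a b J) m G n τ ↔
    Tch a b u V ∈ E u dd J m G n τ) ∧
  (∀ V, (Tch a b u V).natDegree = V.natDegree) ∧
  (∀ V, (Tch a b u V).coeff 1 = 1 ↔ V.coeff 1 = 1) ∧
  ∀ V j a', cf u dd J m G (Tch a b u V) j a' ∈
    Submodule.span k (Set.range fun a'' => cf (uch a b u) (dch a b dd) (sch a b J) m G V j a'')

/-- PEN: choice of the coordinates -/
def T_PEN : Prop := ∀ (k F : Type) [Field k] [IsAlgClosed k] [CharZero k] [Field F] [Algebra k F]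
  (u : Fin 3 → F) (dd : Fin 3 → Derivation k F F) (δ j0 c0 : ℕ) (J : MvPolynomial (Fin 3) k)
  (m : ℕ) (G : F), Sfc u dd δ j0 c0 J → Crd u dd m G → j0 + 4 ≤ m →
  ∀ (h : ℕ) (H : MvPolynomial (Fin 3) k), H.IsHomogeneous h → H ≠ 0 → ∃ a b : k,
  Gd (uch a b u) (dch a b dd) δ j0 c0 (sch a b J) m G ∧
    (sch a b H).coeff (Finsupp.single 2 h) ≠ 0

/-- UPG: the upper bound, if there are many sections divisible by powers of `P` -/
def T_UPG : Prop := ∀ (k F : Type) [Field k] [IsAlgClosed k] [CharZero k] [Field F] [Algebra k F]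
  (u : Fin 3 → F) (dd : Fin 3 → Derivation k F F) (δ j0 c0 : ℕ) (J : MvPolynomial (Fin 3) k)
  (m : ℕ) (G : F), Gd u dd δ j0 c0 J m G → ∀ (w : ℕ) (τP : ℤ) (P : Q2 F), P ≠ 0 → 1 ≤ w →
  3 * P.natDegree ≤ w →
  Tw u dd w τP P → ∀ a0 : Fin 3 →₀ ℕ, cf u dd J m G P P.natDegree a0 ≠ 0 → ∀ g : ℕ,
  (∀ (i : ℕ) (e : ℤ) (W : Submodule (kap k u) F), (∀ x ∈ W, Hm k (eu u dd) e x ∧ ItK k u x ∧
    ∀ j a, ItK k u (x * (cf u dd J m G P j a / cf u dd J m G P P.natDegree a0) ^ i)) →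
    Module.Finite (kap k u) W ∧
      (Module.finrank (kap k u) W : ℤ) ≤ max 0 (δ * (e + 1) - i * g)) →
  ∀ n : ℕ, Mlt u dd J j0 m G n P →
  (Module.finrank k (E u dd J m G n 0) : ℤ) ≤ UU δ j0 m w P.natDegree g n

/-- UPN: the upper bound, if there are no sections of negative twist -/
def T_UPN : Prop := ∀ (k F : Type) [Field k] [IsAlgClosed k] [CharZero k] [Field F] [Algebra k F]
  (u : Fin 3 → F) (dd : Fin 3 → Derivation k F F) (δ j0 c0 : ℕ) (J : MvPolynomial (Fin 3) k)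
  (m : ℕ) (G : F), Gd u dd δ j0 c0 J m G → ∀ n : ℕ,
  (∀ V ∈ E u dd J m G n (-(2 * n * j0 + 1 : ℕ)), V = 0) →
  (Module.finrank k (E u dd J m G n 0) : ℤ) ≤ (2 * n * j0 + 1) * SS δ j0 m 0 0 0 n 0 0

/-! ### Numerical rows for the upper bound -/

/-- NSA: sums -/
def T_NSA : Prop := ∀ N : ℕ, 27 * nA N ≤ 2 * (N + 3) ^ 3 ∧ 6 * nC N ≤ (N + 3) ^ 2 ∧
  N ^ 2 ≤ 6 * nC N

/-- NUF: weight at least 4 -/
def T_NUF : Prop := ∀ δ j0 : ℕ, 1 ≤ δ → ∃ m1 : ℕ, ∀ m w jP : ℕ, m1 ≤ m → 4 ≤ w → 1 ≤ jP →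
  3 * jP ≤ w → ∃ n1 : ℕ, ∀ n : ℕ, n1 ≤ n →
  162 * 20 * UU δ j0 m w jP 0 n ≤ 19 * (δ * m ^ 2 * n ^ 4)

/-- NUT: weight 3 -/
def T_NUT : Prop := ∀ δ j0 q : ℕ, 1 ≤ δ → 1 ≤ q → ∃ m1 : ℕ, ∀ m g : ℕ, m1 ≤ m → m ≤ q * g →
  ∃ n1 : ℕ, ∀ n : ℕ, n1 ≤ n →
  162 * (100 * δ * q) * UU δ j0 m 3 1 g n ≤ (100 * δ * q - 2) * (δ * m ^ 2 * n ^ 4)

/-- NUN: no sections of negative twist -/
def T_NUN : Prop := ∀ δ j0 : ℕ, 1 ≤ δ → ∃ m1 : ℕ, ∀ m : ℕ, m1 ≤ m → ∃ n1 : ℕ, ∀ n : ℕ, n1 ≤ n →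
  162 * 4 * ((2 * n * j0 + 1) * SS δ j0 m 0 0 0 n 0 0) ≤ δ * m ^ 2 * n ^ 4

/-! ### Lower bound -/

/-- MUL: products of sections -/
def T_MUL : Prop := ∀ (k F : Type) [Field k] [IsAlgClosed k] [CharZero k] [Field F] [Algebra k F]
  (u : Fin 3 → F) (dd : Fin 3 → Derivation k F F) (δ j0 c0 : ℕ) (J : MvPolynomial (Fin 3) k)
  (m : ℕ) (G : F), Bs u dd δ j0 c0 J m G → (∀ (n n' : ℕ) (τ τ' : ℤ) (V V' : Q2 F),
    V ∈ E u dd J m G n τ → V' ∈ E u dd J m G n' τ' → V * V' ∈ E u dd J m G (n + n') (τ + τ')) ∧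
  ∀ (n : ℕ) (τ e : ℤ) (z : F) (V : Q2 F), z ∈ BB k u (eu u dd) e → V ∈ E u dd J m G n τ →
    cq z * V ∈ E u dd J m G n (τ + e)

/-- QSC: the sections `q` and `J s` -/
def T_QSC : Prop := ∀ (k F : Type) [Field k] [IsAlgClosed k] [CharZero k] [Field F] [Algebra k F]
  (u : Fin 3 → F) (dd : Fin 3 → Derivation k F F) (δ j0 c0 : ℕ) (J : MvPolynomial (Fin 3) k)
  (m : ℕ) (G : F), Bs u dd δ j0 c0 J m G → ∀ l : Fin 3,
  Polynomial.C (qf u dd m G l) ∈ E u dd J m G 1 1 ∧ js u dd J m G l ∈ E u dd J m G 3 (j0 + 2) ∧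
  (js u dd J m G l).natDegree ≤ 1 ∧
  (js u dd J m G l).coeff 1 = C (aeval u J * dd l G * ((m : F) * G)⁻¹)

/-- REA: integrality over the ring generated by the derivatives of `G` -/
def T_REA : Prop := ∀ (k F : Type) [Field k] [IsAlgClosed k] [CharZero k] [Field F] [Algebra k F]
  (u : Fin 3 → F) (dd : Fin 3 → Derivation k F F) (δ j0 c0 : ℕ) (J : MvPolynomial (Fin 3) k)
  (m : ℕ) (G : F), Bs u dd δ j0 c0 J m G → ∀ β : Fin (m - 1) → Fin 3,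
  Itg k (fun l => aeval u J * dd l G) (aeval u J * ∏ i, u (β i))

/-- REB: products of homogeneous elements integral over `k[v]` -/
def T_REB : Prop := ∀ (k F ι : Type) [Field k] [CharZero k] [Field F] [Algebra k F] [Finite ι]
  (u v : Fin 3 → F) (f : ι → F) (D : Derivation k F F) (d : ℕ), 1 ≤ d →
  (∀ i, D (v i) = (d : F) * v i) → (∀ i, D (f i) = (d : F) * f i) → (∀ i, Itg k u (v i)) →
  (∀ i, Itg k u (f i)) → (∀ i, Itg k v (f i)) → ∃ c1 : ℕ, ∀ (N : ℕ) (β : Fin (N + c1) → ι),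
  ∃ z : (Fin N → Fin 3) → F, (∀ l, Itg k u (z l) ∧ D (z l) = ((c1 * d : ℕ) : F) * z l) ∧
    ∏ i, f (β i) = ∑ l, (∏ i, v (l i)) * z l

/-- FGB: finitely many homogeneous generators -/
def T_FGB : Prop := ∀ (k F : Type) [Field k] [IsAlgClosed k] [CharZero k] [Field F] [Algebra k F]
  (u : Fin 3 → F) (dd : Fin 3 → Derivation k F F) (δ j0 c0 : ℕ) (J : MvPolynomial (Fin 3) k)
  (m : ℕ) (G : F), Bs u dd δ j0 c0 J m G → ∃ (s : ℕ) (η : Fin s → F) (d : Fin s → ℕ),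
  (∀ i, η i ∈ BB k u (eu u dd) (d i)) ∧ ∀ (e : ℕ) (b : F), b ∈ BB k u (eu u dd) e →
    ∃ P : Fin s → MvPolynomial (Fin 3) k, (∀ i, d i ≤ e → (P i).IsHomogeneous (e - d i)) ∧
      (∀ i, e < d i → P i = 0) ∧ b = ∑ i, aeval u (P i) * η i

/-- RED: reduction -/
def T_RED : Prop := ∀ (k F : Type) [Field k] [IsAlgClosed k] [CharZero k] [Field F] [Algebra k F]
  (u : Fin 3 → F) (dd : Fin 3 → Derivation k F F) (δ j0 c0 : ℕ) (J : MvPolynomial (Fin 3) k)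
  (m : ℕ) (G : F), Bs u dd δ j0 c0 J m G → ∃ c1 e1 : ℕ, ∀ (N e : ℕ) (b : F),
  (m - 1) * (N + c1) + e1 ≤ e → b ∈ BB k u (eu u dd) e → ∃ z : (Fin N → Fin 3) → F,
  (∀ l, z l ∈ BB k u (eu u dd) ((e : ℤ) + (N + c1) * j0 - N * (j0 + m - 1))) ∧
    aeval u J ^ (N + c1) * b = ∑ l, (∏ i, (aeval u J * dd (l i) G)) * z l

/-- LTC: sections with given leading coefficient in `w` -/
def T_LTC : Prop := ∀ (k F : Type) [Field k] [IsAlgClosed k] [CharZero k] [Field F] [Algebra k F]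
  (u : Fin 3 → F) (dd : Fin 3 → Derivation k F F) (δ j0 c0 : ℕ) (J : MvPolynomial (Fin 3) k)
  (m : ℕ) (G : F), Bs u dd δ j0 c0 J m G → ∃ c1 e1 : ℕ, ∀ (N i e : ℕ)
  (b : MvPolynomial (Fin 3) F), (m - 1) * (N + c1) + e1 ≤ e → b.IsHomogeneous i →
  (∀ a, b.coeff a ∈ BB k u (eu u dd) e) →
  ∃ V ∈ E u dd J m G (i + 3 * N) ((e : ℤ) + c1 * j0 + N * ((j0 : ℤ) + 3 - m) + i),
    V.natDegree ≤ N ∧
    V.coeff N = C (aeval u J ^ (N + c1) * (((m : F) * G)⁻¹) ^ N) * aeval (qf u dd m G) b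

/-- KQA: the relation between the forms `q` -/
def T_KQA : Prop := ∀ (k F : Type) [Field k] [IsAlgClosed k] [CharZero k] [Field F] [Algebra k F]
  (u : Fin 3 → F) (dd : Fin 3 → Derivation k F F) (δ j0 c0 : ℕ) (J : MvPolynomial (Fin 3) k)
  (m : ℕ) (G : F), Bs u dd δ j0 c0 J m G → ∀ (i : ℕ) (b : MvPolynomial (Fin 3) F),
  b.IsHomogeneous i → aeval (qf u dd m G) b = 0 → ∃ c : MvPolynomial (Fin 3) F,
  (i = 0 → c = 0) ∧ (1 ≤ i → c.IsHomogeneous (i - 1)) ∧ b = (∑ l, C (dd l G) * X l) * c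

/-- KER: dimension of the space of the forms `b(q)` -/
def T_KER : Prop := ∀ (k F : Type) [Field k] [IsAlgClosed k] [CharZero k] [Field F] [Algebra k F]
  (u : Fin 3 → F) (dd : Fin 3 → Derivation k F F) (δ j0 c0 : ℕ) (J : MvPolynomial (Fin 3) k)
  (m : ℕ) (G : F), Bs u dd δ j0 c0 J m G → ∀ (i : ℕ) (e : ℤ),
  ∃ L : Submodule k (MvPolynomial (Fin 2) F), Module.Finite k L ∧
  (∀ f ∈ L, ∃ b : MvPolynomial (Fin 3) F, b.IsHomogeneous i ∧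
    (∀ a, b.coeff a ∈ BB k u (eu u dd) e) ∧ aeval (qf u dd m G) b = f) ∧
  Module.finrank k (BB k u (eu u dd) e) * (i + 2).choose 2 ≤
    Module.finrank k L + Module.finrank k (BB k u (eu u dd) (e - m + 1)) * (i + 1).choose 2

/-- LON: lower bound for large twist -/
def T_LON : Prop := ∀ (k F : Type) [Field k] [IsAlgClosed k] [CharZero k] [Field F] [Algebra k F]
  (u : Fin 3 → F) (dd : Fin 3 → Derivation k F F) (δ j0 c0 : ℕ) (J : MvPolynomial (Fin 3) k)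
  (m : ℕ) (G : F), Bs u dd δ j0 c0 J m G → ∃ c1 c2 : ℕ, ∀ n τ : ℕ, (j0 + 2) * n + c2 ≤ τ →
  ∑ N ∈ Finset.range (n / 3 + 1),
    ((Module.finrank k (BB k u (eu u dd) ((τ : ℤ) + (m - j0) * N - n - c1 * j0)) : ℤ) *
      (n - 3 * N + 2).choose 2 -
      Module.finrank k (BB k u (eu u dd) ((τ : ℤ) + (m - j0) * N - n - c1 * j0 - m + 1)) *
      (n - 3 * N + 1).choose 2) ≤ Module.finrank k (E u dd J m G n τ)

/-- RES: coefficients divisible by `G` -/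
def T_RES : Prop := ∀ (k F : Type) [Field k] [IsAlgClosed k] [CharZero k] [Field F] [Algebra k F]
  (u : Fin 3 → F) (dd : Fin 3 → Derivation k F F) (δ j0 c0 : ℕ) (J : MvPolynomial (Fin 3) k)
  (m : ℕ) (G : F), Gd u dd δ j0 c0 J m G → ∀ V : Q2 F,
  (∀ j a, Itg k u (cf u dd J m G V j a)) → (∀ j a, a 2 = 0 → Itg k u (cf u dd J m G V j a / G)) →
  ∀ j a, Itg k u (cf u dd J m G V j a / G)

/-- RDT: residues modulo `G` -/
def T_RDT : Prop := ∀ (k F : Type) [Field k] [IsAlgClosed k] [CharZero k] [Field F] [Algebra k F]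
  (u : Fin 3 → F) (dd : Fin 3 → Derivation k F F) (δ j0 c0 : ℕ) (J : MvPolynomial (Fin 3) k)
  (m : ℕ) (G : F), Bs u dd δ j0 c0 J m G → ∀ e : ℤ,
  (Module.finrank k (BB k u (eu u dd) e) : ℤ) ≤
    Module.finrank k (BB k u (eu u dd) (e - m)) + δ * (m + 2 * c0) * max 0 (e + c0)

/-- LTW: the step -/
def T_LTW : Prop := ∀ (k F : Type) [Field k] [IsAlgClosed k] [CharZero k] [Field F] [Algebra k F]
  (u : Fin 3 → F) (dd : Fin 3 → Derivation k F F) (δ j0 c0 : ℕ) (J : MvPolynomial (Fin 3) k)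
  (m : ℕ) (G : F), Gd u dd δ j0 c0 J m G → ∀ n τ : ℕ,
  (Module.finrank k (E u dd J m G n τ) : ℤ) ≤ Module.finrank k (E u dd J m G n ((τ : ℤ) - m)) +
    nC n * (δ * (m + 2 * c0) * (τ + n * (m + 2 * j0) + c0))

/-- LNU: the numerical part of the lower bound -/
def T_LNU : Prop := ∀ δ j0 c0 q : ℕ, 1 ≤ q → ∃ m1 : ℕ, ∀ m c1 c2 : ℕ, m1 ≤ m → ∃ n1 : ℕ,
  ∀ (b D : ℤ → ℕ) (n : ℕ), n1 ≤ n → (∀ t, t < 0 → b t = 0) →
  (∀ t : ℕ, 2 * b t ≤ δ * (t + c0) ^ 2) → (∀ t : ℕ, c0 ≤ t → δ * (t - c0) ^ 2 ≤ 2 * b t) →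
  (∀ τ : ℕ, (j0 + 2) * n + c2 ≤ τ → ∑ N ∈ Finset.range (n / 3 + 1),
    ((b ((τ : ℤ) + (m - j0) * N - n - c1 * j0) : ℤ) * (n - 3 * N + 2).choose 2 -
      b ((τ : ℤ) + (m - j0) * N - n - c1 * j0 - m + 1) * (n - 3 * N + 1).choose 2) ≤ D τ) →
  (∀ τ : ℕ, (D τ : ℤ) ≤ D ((τ : ℤ) - m) +
    nC n * (δ * (m + 2 * c0) * (τ + n * (m + 2 * j0) + c0))) →
  ((q : ℤ) - 1) * (δ * m ^ 2 * n ^ 4) ≤ 162 * q * D 0

/-- LOW: the lower bound -/
def T_LOV : Prop := ∀ δ j0 c0 q : ℕ, 1 ≤ q → ∃ m1 : ℕ,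
  ∀ (k F : Type) [Field k] [IsAlgClosed k] [CharZero k] [Field F] [Algebra k F]
  (u : Fin 3 → F) (dd : Fin 3 → Derivation k F F) (J : MvPolynomial (Fin 3) k) (m : ℕ) (G : F),
  m1 ≤ m → Gd u dd δ j0 c0 J m G → ∃ n1 : ℕ, ∀ n : ℕ, n1 ≤ n →
  ((q : ℤ) - 1) * (δ * m ^ 2 * n ^ 4) ≤ 162 * q * Module.finrank k (E u dd J m G n 0)

end Pool.Agent.H92.SF
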