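import Pool.Agent.H3.SF.Defs
import Pool.Agent.H62.HIL.Gen

/-!
# MP_70ba79_ag, THEOREM S: lower and upper bounds for the spaces of sections: definitions

`Bs`: the data of the surface and of the curve `G = 0`; `Gd`: the projection from `(0 : 0 : 1)` is in
general position with respect to `G = 0`. `κ = k(u 1 / u 0)` is the field of the pencil of lines
through this point.
-/

set_option autoImplicit false

namespace Pool.Agent.H92.SF

open MvPolynomial
open Pool.Agent.H84.SM (dp cr dt)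
open Pool.Agent.H3.SF

section Kap

variable (k : Type) {F : Type} [Field k] [Field F] [Algebra k F]

/-- the field `k (u 1 / u 0)` -/
abbrev kap (u : Fin 3 → F) : IntermediateField k F := IntermediateField.adjoin k {u 1 / u 0}

/-- `a` is integral over `κ[u 0, u 2]` -/
def ItK (u : Fin 3 → F) (a : F) : Prop := Itg (kap k u) ![u 0, u 2] a

end Kap

section Data

variable {k F : Type} [Field k] [Field F] [Algebra k F]

/-- the data of the surface and of the curve `G = 0` on it -/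
structure Bs (u : Fin 3 → F) (dd : Fin 3 → Derivation k F F) (δ j0 c0 : ℕ)
    (J : MvPolynomial (Fin 3) k) (m : ℕ) (G : F) : Prop where
  ind : AlgebraicIndependent k u
  rank : Module.finrank (kF k u) F = δ
  pos : 1 ≤ δ
  du : ∀ l j, dd l (u j) = if l = j then 1 else 0
  comm : ∀ l l' a, dd l (dd l' a) = dd l' (dd l a)
  Jh : J.IsHomogeneous j0
  J0 : J ≠ 0
  Jd : ∀ l a, Itg k u a → Itg k u (aeval u J * dd l a)
  neg : ∀ t : ℤ, t < 0 → BB k u (eu u dd) t = ⊥
  fin : ∀ t : ℤ, Module.Finite k (BB k u (eu u dd) t)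
  up : ∀ t : ℕ, 2 * Module.finrank k (BB k u (eu u dd) t) ≤ δ * (t + c0) ^ 2
  lo : ∀ t : ℕ, c0 ≤ t → δ * (t - c0) ^ 2 ≤ 2 * Module.finrank k (BB k u (eu u dd) t)
  big : j0 + 4 ≤ m
  ne : G ≠ 0
  itg : Itg k u G
  hom : Hm k (eu u dd) m G
  cert : ∃ c : ℕ, ∀ i, ∃ e : Fin 3 → F, (∀ l, Itg k u (e l) ∧
    Hm k (eu u dd) ((c : ℤ) + 1 - m) (e l)) ∧ u i ^ c = ∑ l, e l * dd l G
  prm : ∀ a b, Itg k u a → Itg k u b → Itg k u (a * b / G) → Itg k u (a / G) ∨ Itg k u (b / G)

theorem Bs.of {u : Fin 3 → F} {dd : Fin 3 → Derivation k F F} {δ j0 c0 : ℕ}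
    {J : MvPolynomial (Fin 3) k} {m : ℕ} {G : F} (h1 : Sfc u dd δ j0 c0 J) (h2 : Crd u dd m G)
    (h3 : j0 + 4 ≤ m) : Bs u dd δ j0 c0 J m G :=
  ⟨h1.ind, h1.rank, h1.pos, h1.du, h1.comm, h1.Jh, h1.J0, h1.Jd, h1.neg, h1.fin, h1.up, h1.lo, h3,
    h2.ne, h2.itg, h2.hom, h2.cert, h2.prm⟩

/-- the same and the point `(0 : 0 : 1)` is in general position -/
structure Gd (u : Fin 3 → F) (dd : Fin 3 → Derivation k F F) (δ j0 c0 : ℕ)
    (J : MvPolynomial (Fin 3) k) (m : ℕ) (G : F) : Prop extends Bs u dd δ j0 c0 J m G where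
  mon : ∃ (N : ℕ) (q : MvPolynomial (Fin 3) k), 1 ≤ N ∧ q.IsHomogeneous N ∧
    q.coeff (Finsupp.single 2 N) = 1 ∧ Itg k u (aeval u q / G)
  n2 : ¬ Itg k u (aeval u J * dd 2 G / G)

/-- restriction of a form to the pencil: `X 1 = t X 0` -/
noncomputable def sp {L : Type} [Field L] [Algebra k L] (t : L) :
    MvPolynomial (Fin 3) k →ₐ[k] MvPolynomial (Fin 2) L :=
  aeval ![X 0, C t * X 0, X 1]

/-- coefficient of `V` in the chart -/
noncomputable def cf (u : Fin 3 → F) (dd : Fin 3 → Derivation k F F) (J : MvPolynomial (Fin 3) k)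
    (m : ℕ) (G : F) (V : Q2 F) (j : ℕ) (a : Fin 3 →₀ ℕ) : F :=
  ((Ps u dd J m G V).coeff j).coeff a

/-- the forms `q` as polynomials in `p 1`, `p 2` -/
noncomputable def qf (u : Fin 3 → F) (dd : Fin 3 → Derivation k F F) (m : ℕ) (G : F) :
    Fin 3 → MvPolynomial (Fin 2) F := fun i =>
  - (C ((m * G)⁻¹) * cr (fun l => C (dd l G))
    ![- (C ((u 0)⁻¹ * u 1) * X 0 + C ((u 0)⁻¹ * u 2) * X 1), X 0, X 1] i)

/-- the forms `J s l` of weight 3 -/
noncomputable def js (u : Fin 3 → F) (dd : Fin 3 → Derivation k F F) (J : MvPolynomial (Fin 3) k)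
    (m : ℕ) (G : F) (l : Fin 3) : Q2 F :=
  cq (aeval u J) * sl u (grd dd G) (hes dd G) (u 0)⁻¹ (m * G)⁻¹ l

/-- change of coordinates: `u 0 - a u 2`, `u 1 - b u 2`, `u 2` -/
noncomputable def uch (a b : k) (u : Fin 3 → F) : Fin 3 → F :=
  ![u 0 - algebraMap k F a * u 2, u 1 - algebraMap k F b * u 2, u 2]

/-- the derivations with respect to the new coordinates -/
noncomputable def dch (a b : k) (dd : Fin 3 → Derivation k F F) : Fin 3 → Derivation k F F :=
  ![dd 0, dd 1, dd 2 + a • dd 0 + b • dd 1]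

/-- polynomials in the new coordinates -/
noncomputable def sch (a b : k) : MvPolynomial (Fin 3) k →ₐ[k] MvPolynomial (Fin 3) k :=
  aeval ![X 0 + C a * X 2, X 1 + C b * X 2, X 2]

/-- polynomials in the new `p 1`, `p 2`, `w` as polynomials in the old ones -/
noncomputable def Tch (a b : k) (u : Fin 3 → F) : Q2 F →+* Q2 F :=
  ev2 cq ![0, Polynomial.C (X 0), cq (algebraMap k F a) * pv u (u 0)⁻¹ 0 +
    cq (algebraMap k F b) * Polynomial.C (X 0) + Polynomial.C (X 1)] Polynomial.X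

end Data

/-! ### Sums -/

/-- number of the pairs `(s, b)` with `3 s + b ≤ N` -/
def nC (N : ℕ) : ℕ := ∑ s ∈ Finset.range (N / 3 + 1), (N - 3 * s + 1)

/-- sum of `s + b` over these pairs -/
def nA (N : ℕ) : ℕ := ∑ s ∈ Finset.range (N / 3 + 1), ∑ b ∈ Finset.range (N - 3 * s + 1), (s + b)

/-- the upper bound for the sections of weight `n` and twist `τ` divisible by the power `i` of a
polynomial of weight `w` and degree `jP` in `w`, with the gain `g` -/
def SS (δ j0 m w jP g n i : ℕ) (τ : ℤ) : ℤ :=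
  if n < w * i then 0 else
    ∑ s ∈ Finset.range ((n - w * i) / 3 + 1), ∑ b ∈ Finset.range (n - w * i - 3 * s + 1),
      max 0 (δ * (τ + m * ((s : ℤ) + b) + i * m * ((w : ℤ) - 2 * jP) + 2 * j0 * n + 1) - i * g)

/-- the total upper bound -/
def UU (δ j0 m w jP g n : ℕ) : ℤ :=
  (2 * n * j0 + 1) * SS δ j0 m w jP g n 0 0 +
    ∑ r ∈ Finset.range (n / w), ((m : ℤ) - 3) *
      SS δ j0 m w jP g n (r + 1) (-(2 * n * j0 + 1 + ((m : ℤ) - 3) * r))

end Pool.Agent.H92.SF
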