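import Pool.Agent.H84.SM.Defs

/-!
# MP_70ba79_ag, THEOREM S (surfaces), chapter 2: pointwise chart calculus

`x` is a point of the cone, `g` the gradient of the form `G` of degree `m` (with respect to three
coordinates), `H` the matrix of the second derivatives. Jets are described by `p = x × x'` (the
coordinates `p 1`, `p 2` are enough) and `w = det (x, x', x'')`. The chart with the variables
`ρ : Fin 3` and `ζ` is `x' = g × ρ` (up to a multiple of `x`), `w = m G ζ - H(g × ρ, g × ρ) (x · ρ)`;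
the scaling `s` (the Jacobian form) absorbs all denominators.
-/

set_option autoImplicit false

namespace Pool.Agent.H92.SF

open MvPolynomial
open Pool.Agent.H84.SM (dp cr dt)

section Vec

variable {L : Type} [CommRing L]

/-- bilinear form -/
def hq (H : Fin 3 → Fin 3 → L) (a b : Fin 3 → L) : L := ∑ i, ∑ j, H i j * a i * b j

/-- the relations between the coordinates, the first and the second derivatives of a form of
degree `m` -/
structure Dat (m : ℕ) (x g : Fin 3 → L) (G : L) (H : Fin 3 → Fin 3 → L) : Prop where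
  eul : dp x g = m * G
  hes : ∀ i, ∑ j, H i j * x j = (m - 1) * g i
  sym : ∀ i j, H i j = H j i

end Vec

section Rings

variable (L : Type) [CommRing L]

/-- polynomials in `p 1`, `p 2` (variables 0, 1 of `MvPolynomial`) and `w` (variable of
`Polynomial`) -/
abbrev Q2 : Type := Polynomial (MvPolynomial (Fin 2) L)

/-- polynomials in `ρ` (variables of `MvPolynomial`) and `ζ` (variable of `Polynomial`) -/
abbrev C3 : Type := Polynomial (MvPolynomial (Fin 3) L)

variable {L}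

/-- the value of `V` at `(p, w)`, coefficients mapped by `φ` -/
noncomputable def ev2 {R : Type} [CommRing R] (φ : L →+* R) (p : Fin 3 → R) (w : R) : Q2 L →+* R :=
  Polynomial.eval₂RingHom (eval₂Hom φ ![p 1, p 2]) w

/-- the value of `W` at `(ρ, ζ)`, coefficients mapped by `φ` -/
noncomputable def ev3 {R : Type} [CommRing R] (φ : L →+* R) (ρ : Fin 3 → R) (ζ : R) : C3 L →+* R :=
  Polynomial.eval₂RingHom (eval₂Hom φ ρ) ζ

/-- constants of the chart ring -/
noncomputable def cc : L →+* C3 L := Polynomial.C.comp C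

/-- the variables `ρ` -/
noncomputable def rv : Fin 3 → C3 L := fun i => Polynomial.C (X i)

/-- the variable `ζ` -/
noncomputable def zv : C3 L := Polynomial.X

/-- `x · ρ` -/
noncomputable def muc (x : Fin 3 → L) : C3 L := dp (fun i => cc (x i)) rv

/-- `g × ρ` -/
noncomputable def gxr (g : Fin 3 → L) : Fin 3 → C3 L := cr (fun i => cc (g i)) rv

/-- `s² p` in the chart -/
noncomputable def pc (m : ℕ) (x g : Fin 3 → L) (G s : L) : Fin 3 → C3 L := fun i =>
  cc s ^ 2 * (cc (g i) * muc x - cc (m * G) * rv i)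

/-- `s⁶ w` in the chart -/
noncomputable def wc (m : ℕ) (x g : Fin 3 → L) (G : L) (H : Fin 3 → Fin 3 → L) (s : L) : C3 L :=
  cc (m * G) * zv - cc s ^ 6 * hq (fun i j => cc (H i j)) (gxr g) (gxr g) * muc x

/-- the substitution of the chart -/
noncomputable def Psi (m : ℕ) (x g : Fin 3 → L) (G : L) (H : Fin 3 → Fin 3 → L) (s : L) :
    Q2 L →+* C3 L := ev2 cc (pc m x g G s) (wc m x g G H s)

/-- `V` has the weight `n` (`p`: weight 1, `w`: weight 3) -/
def WH (n : ℕ) (V : Q2 L) : Prop :=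
  ∀ j, (3 * j ≤ n → (V.coeff j).IsHomogeneous (n - 3 * j)) ∧ (n < 3 * j → V.coeff j = 0)

/-- the same in the chart -/
def WC (n : ℕ) (W : C3 L) : Prop :=
  ∀ j, (3 * j ≤ n → (W.coeff j).IsHomogeneous (n - 3 * j)) ∧ (n < 3 * j → W.coeff j = 0)

/-- `p 1`, `p 2` and, if `x 0` is invertible with the inverse `i0`, `p 0`, as elements of `Q2` -/
noncomputable def pv (x : Fin 3 → L) (i0 : L) : Fin 3 → Q2 L :=
  ![- Polynomial.C (C (i0 * x 1) * X 0 + C (i0 * x 2) * X 1), Polynomial.C (X 0),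
    Polynomial.C (X 1)]

/-- constants of `Q2` -/
noncomputable def cq : L →+* Q2 L := Polynomial.C.comp C

/-- the form `q = - g × p / (m G)` (`q = x' - (G' / (m G)) x`), `i1` is the inverse of `m G` -/
noncomputable def qv (x g : Fin 3 → L) (i0 i1 : L) : Fin 3 → Q2 L := fun i =>
  - cq i1 * cr (fun i => cq (g i)) (pv x i0) i

/-- the form `(g l * w + H(q, q) * p l) / (m G)` of weight 3 -/
noncomputable def sl (x g : Fin 3 → L) (H : Fin 3 → Fin 3 → L) (i0 i1 : L) (l : Fin 3) : Q2 L :=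
  cq i1 * (cq (g l) * Polynomial.X +
    hq (fun i j => cq (H i j)) (qv x g i0 i1) (qv x g i0 i1) * pv x i0 l)

end Rings

/-! ### Targets -/

/-- VAL: the value of the chart expression at the jet `(q, t)` with `g · q = 0`,
`g × t = - H(q, q) q`; `e` is any vector with `g · e = 1` -/
def T_VAL : Prop := ∀ (L R : Type) [CommRing L] [CommRing R] (φ : L →+* R) (m : ℕ)
  (x g : Fin 3 → L) (G : L) (H : Fin 3 → Fin 3 → L) (s : L), Dat m x g G H →
  ∀ (q t e : Fin 3 → R), dp (fun i => φ (g i)) q = 0 →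
  (∀ i, cr (fun i => φ (g i)) t i = - (hq (fun i j => φ (H i j)) q q * q i)) →
  dp (fun i => φ (g i)) e = 1 → ∀ V : Q2 L,
  ev3 φ (cr q e) (φ s ^ 6 * dp t e) (Psi m x g G H s V) =
    ev2 φ (fun i => φ s ^ 2 * cr (fun i => φ (x i)) q i) (φ s ^ 6 * dp (fun i => φ (x i)) t) V

/-- LIN: the left inverse of the substitution -/
def T_LIN : Prop := ∀ (L : Type) [CommRing L] (m : ℕ) (x g : Fin 3 → L) (G : L)
  (H : Fin 3 → Fin 3 → L) (s i0 i1 i2 : L), Dat m x g G H → i0 * x 0 = 1 → i1 * (m * G) = 1 →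
  i2 * s = 1 → ∀ V : Q2 L,
  ev3 cq (fun i => - (cq (i1 * i2 ^ 2) * pv x i0 i)) (cq i1 * Polynomial.X) (Psi m x g G H s V) = V

/-- SHF: invariance under `ρ ↦ ρ + c g` -/
def T_SHF : Prop := ∀ (L R : Type) [CommRing L] [CommRing R] (φ : L →+* R) (m : ℕ)
  (x g : Fin 3 → L) (G : L) (H : Fin 3 → Fin 3 → L) (s : L), Dat m x g G H →
  ∀ (ρ : Fin 3 → R) (ζ c : R) (V : Q2 L),
  ev3 φ (fun i => ρ i + c * φ (g i))
    (ζ + c * (φ s ^ 6 * hq (fun i j => φ (H i j)) (cr (fun i => φ (g i)) ρ)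
      (cr (fun i => φ (g i)) ρ))) (Psi m x g G H s V) =
    ev3 φ ρ ζ (Psi m x g G H s V)

/-- PWC: weights -/
def T_PWC : Prop := ∀ (L : Type) [CommRing L] (m : ℕ) (x g : Fin 3 → L) (G : L)
  (H : Fin 3 → Fin 3 → L) (s : L) (n : ℕ) (V : Q2 L), WH n V → WC n (Psi m x g G H s V)

/-- PDW: the derivative with respect to `w` -/
def T_PDW : Prop := ∀ (L : Type) [CommRing L] (m : ℕ) (x g : Fin 3 → L) (G : L)
  (H : Fin 3 → Fin 3 → L) (s : L) (V : Q2 L),
  Polynomial.derivative (Psi m x g G H s V) =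
    cc (m * G) * Psi m x g G H s (Polynomial.derivative V)

/-- PQV: the forms `q` in the chart -/
def T_PQV : Prop := ∀ (L : Type) [CommRing L] (m : ℕ) (x g : Fin 3 → L) (G : L)
  (H : Fin 3 → Fin 3 → L) (s i0 i1 : L), Dat m x g G H → i0 * x 0 = 1 → i1 * (m * G) = 1 →
  (∀ i, Psi m x g G H s (pv x i0 i) = pc m x g G s i) ∧
  (∀ i, Psi m x g G H s (qv x g i0 i1 i) = cc s ^ 2 * gxr g i) ∧
  ∀ l, Psi m x g G H s (sl x g H i0 i1 l) = cc (g l) * zv -
    cc s ^ 6 * hq (fun i j => cc (H i j)) (gxr g) (gxr g) * rv l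

/-- SCL: scaling of homogeneous elements of weight `n` and twist `τ`: `φ'` is `φ` composed with
the scaling by `c` on the coefficients of `V` -/
def T_SCL : Prop := ∀ (L K : Type) [CommRing L] [Field K] (φ φ' : L →+* K) (n : ℕ) (τ : ℤ)
  (V : Q2 L) (c μ : K), c ≠ 0 → WH n V →
  (∀ (j : ℕ) (a : Fin 2 →₀ ℕ), φ' ((V.coeff j).coeff a) =
    c ^ (τ - 2 * n + 3 * j) * φ ((V.coeff j).coeff a)) → ∀ (p : Fin 3 → K) (w : K),
  ev2 φ' (fun i => c ^ 2 * μ * p i) (c ^ 3 * μ ^ 3 * w) V = c ^ τ * μ ^ n * ev2 φ p w V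

/-- JET: the logarithmic jet of a curve -/
def T_JET : Prop := ∀ (K : Type) [Field K] [CharZero K] (D : Derivation ℤ K K) (m : ℕ)
  (x g : Fin 3 → K) (G : K) (H : Fin 3 → Fin 3 → K), 1 ≤ m → Dat m x g G H → G ≠ 0 →
  D G = ∑ i, g i * D (x i) → (∀ i, D (g i) = ∑ j, H i j * D (x j)) →
  ∀ q t : Fin 3 → K, (∀ i, q i = D (x i) - D G / (m * G) * x i) →
  (∀ i, t i = cr q (fun j => D (q j) - D G / (m * G) * q j) i) →
  dp g q = 0 ∧ (∀ i, cr g t i = - (hq H q q * q i)) ∧
  (∀ i, cr x q i = cr x (fun j => D (x j)) i) ∧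
  dp x t = dt x (fun j => D (x j)) (fun j => D (D (x j)))

end Pool.Agent.H92.SF
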